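import Pool.Agent.MP_b7753f_al.Data

/-!
# The finite checks
-/

namespace Pool.Agent.MP_b7753f_al

theorem basic_ok : ∀ c, basicOK (dat c) (datS c) = true := by decide +kernel

theorem dec00 : decOK dat (dat0.tens dat0) dcp00 = true := by decide +kernel

theorem dec01 : decOK dat (dat0.tens dat1) dcp01 = true := by decide +kernel

theorem dec02 : decOK dat (dat0.tens dat2) dcp02 = true := by decide +kernel

theorem dec03 : decOK dat (dat0.tens dat3) dcp03 = true := by decide +kernel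

theorem dec10 : decOK dat (dat1.tens dat0) dcp10 = true := by decide +kernel

theorem dec11 : decOK dat (dat1.tens dat1) dcp11 = true := by decide +kernel

theorem dec12 : decOK dat (dat1.tens dat2) dcp12 = true := by decide +kernel

theorem dec13 : decOK dat (dat1.tens dat3) dcp13 = true := by decide +kernel

theorem dec20 : decOK dat (dat2.tens dat0) dcp20 = true := by decide +kernel

theorem dec21 : decOK dat (dat2.tens dat1) dcp21 = true := by decide +kernel

theorem dec22 : decOK dat (dat2.tens dat2) dcp22 = true := by decide +kernel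

theorem dec23 : decOK dat (dat2.tens dat3) dcp23 = true := by decide +kernel

theorem dec30 : decOK dat (dat3.tens dat0) dcp30 = true := by decide +kernel

theorem dec31 : decOK dat (dat3.tens dat1) dcp31 = true := by decide +kernel

theorem dec32 : decOK dat (dat3.tens dat2) dcp32 = true := by decide +kernel

theorem dec33 : decOK dat (dat3.tens dat3) dcp33 = true := by decide +kernel

theorem tens_ok : ∀ c c' : Fin 4, ∃ l, decOK dat ((dat c).tens (dat c')) l = true
  | 0, 0 => ⟨_, dec00⟩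
  | 0, 1 => ⟨_, dec01⟩
  | 0, 2 => ⟨_, dec02⟩
  | 0, 3 => ⟨_, dec03⟩
  | 1, 0 => ⟨_, dec10⟩
  | 1, 1 => ⟨_, dec11⟩
  | 1, 2 => ⟨_, dec12⟩
  | 1, 3 => ⟨_, dec13⟩
  | 2, 0 => ⟨_, dec20⟩
  | 2, 1 => ⟨_, dec21⟩
  | 2, 2 => ⟨_, dec22⟩
  | 2, 3 => ⟨_, dec23⟩
  | 3, 0 => ⟨_, dec30⟩
  | 3, 1 => ⟨_, dec31⟩
  | 3, 2 => ⟨_, dec32⟩
  | 3, 3 => ⟨_, dec33⟩

theorem unit_ok : decOK dat dat0 [(0, NM.one, NM.one)] = true := by decide +kernel

/-- The identity or zero table. -/
def zT (c c' : Fin 4) : NM := if c = c' then NM.one else NM.zero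

/-- The certificates. -/
def crt : Fin 4 → Fin 4 → List (List (ℕ × ℕ))
  | 0, 0 => crt00
  | 0, 1 => crt01
  | 0, 2 => crt02
  | 0, 3 => crt03
  | 1, 0 => crt10
  | 1, 1 => crt11
  | 1, 2 => crt12
  | 1, 3 => crt13
  | 2, 0 => crt20
  | 2, 1 => crt21
  | 2, 2 => crt22
  | 2, 3 => crt23
  | 3, 0 => crt30
  | 3, 1 => crt31
  | 3, 2 => crt32
  | 3, 3 => crt33

theorem cert_ok : ∀ c c' : Fin 4, certOK (dat c).n (dat c').n (dat c).d (dat c').d (dat c).A
    (dat c).B (dat c').A (dat c').B (dat c').P (dat c).I (zT c c') (crt c c') = true := by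
  decide +kernel

theorem zT_eqv : ∀ c c' : Fin 4, eqvOK (dat c) (dat c') (zT c c') = true := by decide +kernel

theorem zT_hom : ∀ c c' : Fin 4, homOK (dat c) (dat c') (zT c c') = true := by decide +kernel

theorem zT_phi : ∀ c c' : Fin 4, NM.eqv (dat c').d (dat c).d (phiT (dat c) (dat c') (zT c c'))
    (zT c c') = true := by decide +kernel

theorem top_ok : certOK 8 8 8 2 dat2.A dat2.B dat2.A dat2.B NM.one NM.one NM.one crtTop = true := by
  decide +kernel

theorem rad_ok : (NM.eqv 8 8 dat2.A (NM.add NM.one tX) && NM.eqv 8 8 dat2.B (NM.add NM.one tY) &&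
    NM.eqv 8 8 NM.one (NM.add (NM.mul 2 NM.one NM.one) (NM.add (NM.mul 8 tX tA0) (NM.mul 8 tY tB0))) &&
    NM.eqv 8 8 (NM.mul 8 tY tX) (NM.mul 8 tX tY) &&
    NM.eqv 8 8 (NM.mul 8 (NM.mul 8 tX tX) tX) NM.zero &&
    NM.eqv 8 8 (NM.mul 8 (NM.mul 8 tX tX) tY) NM.zero &&
    NM.eqv 8 8 (NM.mul 8 (NM.mul 8 tX tY) tY) NM.zero &&
    NM.eqv 8 8 (NM.mul 8 (NM.mul 8 tY tY) tY) NM.zero) = true := by decide +kernel

theorem retr0 : (eqvOK dat0 (dat2.tens dat2) pp0 && eqvOK (dat2.tens dat2) dat0 qq0 &&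
    NM.eqv dat0.d dat0.d (NM.mul 4 qq0 pp0) NM.one) = true := by decide +kernel

theorem retr1 : (eqvOK dat1 (dat2.tens dat2) pp1 && eqvOK (dat2.tens dat2) dat1 qq1 &&
    NM.eqv dat1.d dat1.d (NM.mul 4 qq1 pp1) NM.one) = true := by decide +kernel

theorem retr3 : (eqvOK dat3 (dat2.tens dat2) pp3 && eqvOK (dat2.tens dat2) dat3 qq3 &&
    NM.eqv dat3.d dat3.d (NM.mul 4 qq3 pp3) NM.one) = true := by decide +kernel

end Pool.Agent.MP_b7753f_al
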