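import Mathlib.LinearAlgebra.Trace
import Mathlib.Combinatorics.Quiver.ReflQuiver
import Mathlib.RepresentationTheory.FDRep

/-!
# Negligible morphisms of finite-dimensional representations
-/

open CategoryTheory MonoidalCategory Limits

namespace Pool.Agent.MP_b7753f_al

universe u v

variable {k : Type u} [Field k] {G : Type v} [Group G]

/-- The trace of an endomorphism of a finite-dimensional representation. -/
noncomputable def tr {X : FDRep k G} (f : X ⟶ X) : k :=
  LinearMap.trace k X f.hom.hom.hom

/-- `f : X ⟶ Y` is negligible if `Tr (g ∘ f) = 0` for every morphism `g : Y ⟶ X`. -/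
def Negligible {X Y : FDRep k G} (f : X ⟶ Y) : Prop :=
  ∀ g : Y ⟶ X, tr (f ≫ g) = 0

variable (k G) in
/-- Two parallel morphisms are identified when their difference is negligible. -/
def negRel (X Y : FDRep k G) (f g : X ⟶ Y) : Prop := Negligible (f - g)

end Pool.Agent.MP_b7753f_al
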