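import Mathlib.CategoryTheory.Monoidal.Mon
import Mathlib.CategoryTheory.Quotient
import Mathlib.Combinatorics.Quiver.ReflQuiver

/-!
# Quotients of symmetric monoidal categories by tensor congruences
-/

open CategoryTheory MonoidalCategory Limits

namespace Pool.Agent.MP_b7753f_al

universe u v

section Generic

variable {C : Type u} [Category.{v} C]

/-- A monoidal category with given data, once the data are known to satisfy the axioms. -/
@[reducible] def monoidalOf (s : MonoidalCategoryStruct C)
    (h : ∃ m : MonoidalCategory C, m.toMonoidalCategoryStruct = s) : MonoidalCategory C where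
  toMonoidalCategoryStruct := s
  tensorHom_def := by obtain ⟨m, rfl⟩ := h; exact m.tensorHom_def
  id_tensorHom_id := by obtain ⟨m, rfl⟩ := h; exact m.id_tensorHom_id
  tensorHom_comp_tensorHom := by obtain ⟨m, rfl⟩ := h; exact m.tensorHom_comp_tensorHom
  whiskerLeft_id := by obtain ⟨m, rfl⟩ := h; exact m.whiskerLeft_id
  id_whiskerRight := by obtain ⟨m, rfl⟩ := h; exact m.id_whiskerRight
  associator_naturality := by obtain ⟨m, rfl⟩ := h; exact m.associator_naturality
  leftUnitor_naturality := by obtain ⟨m, rfl⟩ := h; exact m.leftUnitor_naturality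
  rightUnitor_naturality := by obtain ⟨m, rfl⟩ := h; exact m.rightUnitor_naturality
  pentagon := by obtain ⟨m, rfl⟩ := h; exact m.pentagon
  triangle := by obtain ⟨m, rfl⟩ := h; exact m.triangle

variable [MonoidalCategory C]

/-- A symmetric structure with given braiding, once it is known to satisfy the axioms. -/
@[reducible] def symmetricOf (b : ∀ X Y : C, X ⊗ Y ≅ Y ⊗ X)
    (h : ∃ m : SymmetricCategory C, m.toBraidedCategory.braiding = b) : SymmetricCategory C where
  braiding := b
  braiding_naturality_right := by obtain ⟨m, rfl⟩ := h; exact m.braiding_naturality_right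
  braiding_naturality_left := by obtain ⟨m, rfl⟩ := h; exact m.braiding_naturality_left
  hexagon_forward := by obtain ⟨m, rfl⟩ := h; exact m.hexagon_forward
  hexagon_reverse := by obtain ⟨m, rfl⟩ := h; exact m.hexagon_reverse
  symmetry := by obtain ⟨m, rfl⟩ := h; exact m.symmetry

variable (r : ∀ X Y : C, (X ⟶ Y) → (X ⟶ Y) → Prop)

/-- The relation `r` on morphisms is preserved by tensoring with identities. -/
def TensorStable : Prop :=
  ∀ (Z X Y : C) (f g : X ⟶ Y), r X Y f g →
    r _ _ (Z ◁ f) (Z ◁ g) ∧ r _ _ (f ▷ Z) (g ▷ Z)

variable {r} (h : TensorStable r)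

include h in
theorem tensL_aux (Z X Y : C) (f g : X ⟶ Y) (e : r X Y f g) :
    (tensorLeft Z ⋙ Quotient.functor r).map f = (tensorLeft Z ⋙ Quotient.functor r).map g :=
  CategoryTheory.Quotient.sound r (h Z X Y f g e).1

include h in
theorem tensR_aux (Z X Y : C) (f g : X ⟶ Y) (e : r X Y f g) :
    (tensorRight Z ⋙ Quotient.functor r).map f = (tensorRight Z ⋙ Quotient.functor r).map g :=
  CategoryTheory.Quotient.sound r (h Z X Y f g e).2

/-- Tensoring on the left with `Z`, on the quotient category. -/
def tensL (Z : C) : CategoryTheory.Quotient r ⥤ CategoryTheory.Quotient r :=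
  CategoryTheory.Quotient.lift r (tensorLeft Z ⋙ Quotient.functor r) (tensL_aux h Z)

/-- Tensoring on the right with `Z`, on the quotient category. -/
def tensR (Z : C) : CategoryTheory.Quotient r ⥤ CategoryTheory.Quotient r :=
  CategoryTheory.Quotient.lift r (tensorRight Z ⋙ Quotient.functor r) (tensR_aux h Z)

/-- The monoidal data induced on the quotient category. -/
@[reducible] def quotStruct : MonoidalCategoryStruct (CategoryTheory.Quotient r) where
  tensorObj X Y := ⟨X.as ⊗ Y.as⟩
  whiskerLeft X _ _ f := (tensL h X.as).map f
  whiskerRight f Y := (tensR h Y.as).map f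
  tensorHom {_ Y₁ X₂ _} f g := (tensR h X₂.as).map f ≫ (tensL h Y₁.as).map g
  tensorUnit := ⟨𝟙_ C⟩
  associator X Y Z := (Quotient.functor r).mapIso (α_ X.as Y.as Z.as)
  leftUnitor X := (Quotient.functor r).mapIso (λ_ X.as)
  rightUnitor X := (Quotient.functor r).mapIso (ρ_ X.as)

theorem quotStruct_ax : ∃ m : MonoidalCategory (CategoryTheory.Quotient r),
    m.toMonoidalCategoryStruct = quotStruct h :=
  ⟨{ toMonoidalCategoryStruct := quotStruct h
     tensorHom_def := fun _ _ => rfl
     id_tensorHom_id := fun X Y => congrArg (Quotient.functor r).map (by simp; exact Category.id_comp _)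
     tensorHom_comp_tensorHom := by
       rintro _ _ _ _ _ _ ⟨f⟩ ⟨f'⟩ ⟨g⟩ ⟨g'⟩
       have h := tensorHom_comp_tensorHom f f' g g'
       simp only [MonoidalCategory.tensorHom_def] at h
       exact congrArg (Quotient.functor r).map h
     whiskerLeft_id := fun X Y => (tensL h X.as).map_id Y
     id_whiskerRight := fun X Y => (tensR h Y.as).map_id X
     associator_naturality := by
       rintro _ _ _ _ _ _ ⟨f⟩ ⟨g⟩ ⟨h⟩
       have h := associator_naturality f g h
       simp only [MonoidalCategory.tensorHom_def] at h
       exact congrArg (Quotient.functor r).map h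
     leftUnitor_naturality := by
       rintro _ _ ⟨f⟩
       exact congrArg (Quotient.functor r).map (leftUnitor_naturality f)
     rightUnitor_naturality := by
       rintro _ _ ⟨f⟩
       exact congrArg (Quotient.functor r).map (rightUnitor_naturality f)
     pentagon := fun W X Y Z => congrArg (Quotient.functor r).map (pentagon W.as X.as Y.as Z.as)
     triangle := fun X Y => congrArg (Quotient.functor r).map (triangle X.as Y.as) }, rfl⟩

/-- The monoidal structure induced on the quotient category. -/
@[reducible] def quotMonoidal : MonoidalCategory (CategoryTheory.Quotient r) :=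
  monoidalOf (quotStruct h) (quotStruct_ax h)

variable [SymmetricCategory C]

variable (r) in
/-- The braiding induced on the quotient category. -/
def quotBraiding (X Y : CategoryTheory.Quotient r) :
    (⟨X.as ⊗ Y.as⟩ : CategoryTheory.Quotient r) ≅ ⟨Y.as ⊗ X.as⟩ :=
  (Quotient.functor r).mapIso (β_ X.as Y.as)

theorem quotBraiding_ax : letI := quotMonoidal h
    ∃ m : SymmetricCategory (CategoryTheory.Quotient r),
      m.toBraidedCategory.braiding = quotBraiding r :=
  letI := quotMonoidal h
  ⟨{ braiding := quotBraiding r
     braiding_naturality_right := by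
       rintro X _ _ ⟨f⟩
       exact congrArg (Quotient.functor r).map (BraidedCategory.braiding_naturality_right X.as f)
     braiding_naturality_left := by
       rintro _ _ ⟨f⟩ Z
       exact congrArg (Quotient.functor r).map (BraidedCategory.braiding_naturality_left f Z.as)
     hexagon_forward := fun X Y Z =>
       congrArg (Quotient.functor r).map (BraidedCategory.hexagon_forward X.as Y.as Z.as)
     hexagon_reverse := fun X Y Z =>
       congrArg (Quotient.functor r).map (BraidedCategory.hexagon_reverse X.as Y.as Z.as)
     symmetry := fun X Y =>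
       congrArg (Quotient.functor r).map (SymmetricCategory.symmetry X.as Y.as) }, rfl⟩

/-- The symmetric structure induced on the quotient category. -/
@[reducible] def quotSymmetric : letI := quotMonoidal h
    SymmetricCategory (CategoryTheory.Quotient r) :=
  letI := quotMonoidal h
  symmetricOf (quotBraiding r) (quotBraiding_ax h)

end Generic

end Pool.Agent.MP_b7753f_al
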