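import Mathlib.LinearAlgebra.FreeModule.PID
import Mathlib.Algebra.Category.ModuleCat.Algebra
import Mathlib.RingTheory.Flat.TorsionFree
import Mathlib.Algebra.Module.StablyFree.Basic
import Mathlib.RingTheory.SimpleRing.Principal
import Pool.Agent.MP_b7753f_al.Negligible
import Pool.Agent.MP_b7753f_al.Quot

/-!
# Negligible morphisms form a tensor ideal
-/

open CategoryTheory MonoidalCategory Limits

namespace Pool.Agent.MP_b7753f_al

universe u v

variable {k : Type u} [Field k] {G : Type v} [Group G]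

theorem lin_comm {X Y : FDRep k G} (f : X ⟶ Y) (g : G) :
    f.hom.hom.hom ∘ₗ X.ρ g = Y.ρ g ∘ₗ f.hom.hom.hom :=
  congrArg (fun t => t.hom.hom) (f.comm g)

/-- A morphism of representations from an equivariant linear map. -/
noncomputable def mkHom {X Y : FDRep k G} (f : X →ₗ[k] Y)
    (h : ∀ g, f ∘ₗ X.ρ g = Y.ρ g ∘ₗ f) : X ⟶ Y :=
  ⟨InducedCategory.homMk (ModuleCat.ofHom f), fun g => by
    ext1
    exact h g⟩

theorem tr_comm {X Y : FDRep k G} (f : X ⟶ Y) (g : Y ⟶ X) : tr (f ≫ g) = tr (g ≫ f) :=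
  LinearMap.trace_comp_comm' f.hom.hom.hom g.hom.hom.hom

theorem tr_add {X : FDRep k G} (f g : X ⟶ X) : tr (f + g) = tr f + tr g :=
  (LinearMap.trace k X).map_add f.hom.hom.hom g.hom.hom.hom

theorem tr_smul {X : FDRep k G} (c : k) (f : X ⟶ X) : tr (c • f) = c * tr f :=
  (LinearMap.trace k X).map_smul c f.hom.hom.hom

theorem Negligible.comp_right {X Y Z : FDRep k G} {f : X ⟶ Y} (h : Negligible f) (g : Y ⟶ Z) :
    Negligible (f ≫ g) := fun e => by
  rw [Category.assoc]
  exact h _

theorem Negligible.comp_left {X Y Z : FDRep k G} (e : X ⟶ Y) {f : Y ⟶ Z} (h : Negligible f) :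
    Negligible (e ≫ f) := fun g => by
  rw [Category.assoc, tr_comm, Category.assoc]
  exact h _

theorem Negligible.add {X Y : FDRep k G} {f g : X ⟶ Y} (hf : Negligible f) (hg : Negligible g) :
    Negligible (f + g) := fun e => by
  rw [Preadditive.add_comp, tr_add, hf e, hg e, add_zero]

theorem Negligible.smul {X Y : FDRep k G} (c : k) {f : X ⟶ Y} (hf : Negligible f) :
    Negligible (c • f) := fun e => by
  rw [Linear.smul_comp, tr_smul, hf e, mul_zero]

/-- The partial trace over the second tensor factor. -/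
noncomputable def ptr (X Y Z : Type u) [AddCommGroup X] [Module k X] [AddCommGroup Y] [Module k Y]
    [AddCommGroup Z] [Module k Z] [Module.Finite k Y] [Module.Finite k Z] :
    (TensorProduct k Y Z →ₗ[k] TensorProduct k X Z) →ₗ[k] (Y →ₗ[k] X) :=
  (TensorProduct.rid k (Y →ₗ[k] X)).toLinearMap ∘ₗ
    (LinearMap.trace k Z).lTensor (Y →ₗ[k] X) ∘ₗ (homTensorHomEquiv k Y Z X Z).symm.toLinearMap

section
variable {X Y Z : Type u} [AddCommGroup X] [Module k X] [AddCommGroup Y] [Module k Y]
    [AddCommGroup Z] [Module k Z] [Module.Finite k Y] [Module.Finite k Z]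

theorem ptr_map (a : Y →ₗ[k] X) (b : Z →ₗ[k] Z) :
    ptr X Y Z (TensorProduct.map a b) = LinearMap.trace k Z b • a := by
  have : (homTensorHomEquiv k Y Z X Z).symm (TensorProduct.map a b) = a ⊗ₜ b := by
    rw [LinearEquiv.symm_apply_eq]
    simp
  simp [ptr, this]

theorem map_induction (P : (TensorProduct k Y Z →ₗ[k] TensorProduct k X Z) → Prop) (h0 : P 0)
    (h1 : ∀ a b, P (TensorProduct.map a b)) (h2 : ∀ s t, P s → P t → P (s + t)) (g) : P g := by
  obtain ⟨t, rfl⟩ := (homTensorHomEquiv k Y Z X Z).surjective g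
  induction t with
  | zero => simpa using h0
  | tmul a b => simpa using h1 a b
  | add s t hs ht => simpa using h2 _ _ hs ht

theorem ptr_conj (a : X →ₗ[k] X) (a' : Y →ₗ[k] Y) (b b' : Z →ₗ[k] Z) (hb : b' ∘ₗ b = .id)
    (g : TensorProduct k Y Z →ₗ[k] TensorProduct k X Z) :
    ptr X Y Z (TensorProduct.map a b ∘ₗ g ∘ₗ TensorProduct.map a' b') =
      a ∘ₗ ptr X Y Z g ∘ₗ a' := by
  induction g using map_induction with
  | h0 => simp
  | h1 c d =>
    rw [← TensorProduct.map_comp, ← TensorProduct.map_comp, ptr_map, ptr_map,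
      LinearMap.trace_comp_comm', LinearMap.comp_assoc, hb, LinearMap.comp_id,
      LinearMap.smul_comp, LinearMap.comp_smul]
  | h2 s t hs ht => simp only [LinearMap.add_comp, LinearMap.comp_add, map_add, hs, ht]

theorem trace_ptr [Module.Finite k X] (f : X →ₗ[k] Y)
    (g : TensorProduct k Y Z →ₗ[k] TensorProduct k X Z) :
    LinearMap.trace k _ (g ∘ₗ TensorProduct.map f .id) =
      LinearMap.trace k X (ptr X Y Z g ∘ₗ f) := by
  induction g using map_induction with
  | h0 => simp
  | h1 c d =>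
    rw [← TensorProduct.map_comp, LinearMap.trace_tensorProduct', ptr_map, LinearMap.smul_comp,
      map_smul, LinearMap.comp_id, smul_eq_mul, mul_comm]
  | h2 s t hs ht => simp only [LinearMap.add_comp, map_add, hs, ht]

end

theorem Negligible.whiskerRight {X Y : FDRep k G} {f : X ⟶ Y} (h : Negligible f)
    (Z : FDRep k G) : Negligible (f ▷ Z) := fun g => by
  let g0 : TensorProduct k Y Z →ₗ[k] TensorProduct k X Z := g.hom.hom.hom
  have hg : ∀ s : G, g0 ∘ₗ TensorProduct.map (Y.ρ s) (Z.ρ s) =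
      TensorProduct.map (X.ρ s) (Z.ρ s) ∘ₗ g0 := lin_comm g
  have hi : ∀ (W : FDRep k G) (s : G), W.ρ s⁻¹ ∘ₗ W.ρ s = .id := fun W s => by
    rw [← Module.End.mul_eq_comp, ← map_mul, inv_mul_cancel, map_one]
    rfl
  have he : ∀ s : G, ptr X Y Z g0 ∘ₗ Y.ρ s = X.ρ s ∘ₗ ptr X Y Z g0 := fun s => by
    have h1 := ptr_conj (X.ρ s) (Y.ρ s⁻¹) (Z.ρ s) (Z.ρ s⁻¹) (hi Z s) g0
    have h2 := hi Y s⁻¹
    have h3 := hi Z s⁻¹
    rw [inv_inv] at h2 h3
    rw [← LinearMap.comp_assoc, ← hg, LinearMap.comp_assoc, ← TensorProduct.map_comp, h2, h3,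
      TensorProduct.map_id, LinearMap.comp_id] at h1
    conv_lhs => rw [h1]
    rw [LinearMap.comp_assoc, LinearMap.comp_assoc, hi, LinearMap.comp_id]
  exact (trace_ptr f.hom.hom.hom g0).trans (h (mkHom _ he))

theorem Negligible.whiskerLeft (Z : FDRep k G) {X Y : FDRep k G} {f : X ⟶ Y}
    (h : Negligible f) : Negligible (Z ◁ f) := by
  have : Z ◁ f = (β_ Z X).hom ≫ f ▷ Z ≫ (β_ Z Y).inv := by simp
  rw [this]
  exact ((h.whiskerRight Z).comp_right _).comp_left _

variable (k G)

theorem negRel_congruence : Congruence (negRel k G) where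
  comp_left f g g' h := by
    have := Negligible.comp_left f h
    rwa [Preadditive.comp_sub] at this
  comp_right g h := by
    have := Negligible.comp_right h g
    rwa [Preadditive.sub_comp] at this
  equivalence :=
    { refl := fun f => by
        intro g
        rw [sub_self, zero_comp, ← zero_smul k (0 : _ ⟶ _), tr_smul, zero_mul]
      symm := fun {f g} h => by
        have := Negligible.smul (-1) h
        rwa [neg_one_smul, neg_sub] at this
      trans := fun {f g e} h h' => by
        have := Negligible.add h h'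
        rwa [sub_add_sub_cancel] at this }

theorem negligible_add_aux ⦃X Y : FDRep k G⦄ (f₁ f₂ g₁ g₂ : X ⟶ Y) (h : Negligible (f₁ - f₂))
    (h' : Negligible (g₁ - g₂)) : Negligible (f₁ + g₁ - (f₂ + g₂)) := by
  have := Negligible.add h h'
  rwa [sub_add_sub_comm] at this

theorem negligible_smul_aux (a : k) ⦃X Y : FDRep k G⦄ (f₁ f₂ : X ⟶ Y) (h : Negligible (f₁ - f₂)) :
    Negligible (a • f₁ - a • f₂) := by
  have := Negligible.smul a h
  rwa [smul_sub] at this

theorem negRel_tensorStable_aux : TensorStable (negRel k G) := fun Z X Y f g h => by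
  have h1 := Negligible.whiskerLeft Z h
  have h2 := Negligible.whiskerRight h Z
  rw [sub_eq_add_neg, MonoidalPreadditive.whiskerLeft_add, ← neg_one_smul k,
    MonoidalLinear.whiskerLeft_smul, neg_one_smul, ← sub_eq_add_neg] at h1
  rw [sub_eq_add_neg, MonoidalPreadditive.add_whiskerRight, ← neg_one_smul k,
    MonoidalLinear.smul_whiskerRight, neg_one_smul, ← sub_eq_add_neg] at h2
  exact ⟨h1, h2⟩

end Pool.Agent.MP_b7753f_al
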