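import Mathlib.CategoryTheory.Quotient.Linear
import Mathlib.CategoryTheory.Quotient.Preadditive
import Pool.Agent.MP_b7753f_al.Ideal

/-!
# The semisimplification of `rep G` and its full tensor subcategories

`FDRep k G` is Mathlib's symmetric monoidal `k`-linear category of finite-dimensional
representations.  We define negligible morphisms, the quotient category `Semisimp k G` by them
(same objects, with the induced additive, linear, monoidal and symmetric structures), full tensor
subcategories of it and the one generated by an object.
-/

open CategoryTheory MonoidalCategory Limits

namespace Pool.Agent.MP_b7753f_al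

universe u v

variable {k : Type u} [Field k] {G : Type v} [Group G]

/-! ### The semisimplification -/

variable (k G)

instance : Congruence (negRel k G) := negRel_congruence k G

/-- The semisimplification of `FDRep k G`: the quotient category by negligible morphisms. -/
abbrev Semisimp : Type _ := CategoryTheory.Quotient (negRel k G)

/-- The canonical functor `V ↦ V̄`. -/
abbrev bar : FDRep k G ⥤ Semisimp k G := Quotient.functor (negRel k G)

theorem negligible_add ⦃X Y : FDRep k G⦄ (f₁ f₂ g₁ g₂ : X ⟶ Y) (h : negRel k G X Y f₁ f₂)
    (h' : negRel k G X Y g₁ g₂) : negRel k G X Y (f₁ + g₁) (f₂ + g₂) :=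
  negligible_add_aux k G f₁ f₂ g₁ g₂ h h'

theorem negligible_smul (a : k) ⦃X Y : FDRep k G⦄ (f₁ f₂ : X ⟶ Y) (h : negRel k G X Y f₁ f₂) :
    negRel k G X Y (a • f₁) (a • f₂) :=
  negligible_smul_aux k G a f₁ f₂ h

noncomputable instance : Preadditive (Semisimp k G) :=
  Quotient.preadditive (negRel k G) (negligible_add k G)

instance : (bar k G).Additive where
  map_add := rfl

noncomputable instance : Linear k (Semisimp k G) :=
  Quotient.linear k (negRel k G) (negligible_smul k G)

instance : (bar k G).Linear k where
  map_smul _ _ := rfl

theorem negRel_tensorStable : TensorStable (negRel k G) := negRel_tensorStable_aux k G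

/-- The monoidal structure of the semisimplification, induced from `FDRep k G`. -/
noncomputable instance : MonoidalCategory (Semisimp k G) :=
  quotMonoidal (negRel_tensorStable k G)

/-- The symmetric braiding of the semisimplification, induced from `FDRep k G`. -/
noncomputable instance : SymmetricCategory (Semisimp k G) :=
  quotSymmetric (negRel_tensorStable k G)

variable {k G}

/-! ### Full tensor subcategories -/

/-- A class of objects of the semisimplification spans a full tensor subcategory: it contains the
unit and is closed under tensor products, duals, direct sums and direct summands. -/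
structure IsTensorSub (P : ObjectProperty (Semisimp k G)) : Prop where
  unit : P (𝟙_ _)
  tensor : ∀ X Y, P X → P Y → P (X ⊗ Y)
  dual : ∀ X Y, ExactPairing X Y → P X → P Y
  sum : ∀ (X Y) (b : BinaryBicone X Y), b.IsBilimit → P X → P Y → P b.pt
  summand : ∀ X Y, Retract Y X → P X → P Y

/-- The full tensor subcategory generated by `V̄`: the smallest one containing it. -/
def gen (V : FDRep k G) : ObjectProperty (Semisimp k G) :=
  fun X => ∀ P, IsTensorSub P → P ((bar k G).obj V) → P X

instance (V : FDRep k G) : (gen V).IsMonoidal where
  prop_unit _ hP _ := hP.unit
  prop_tensor X Y hX hY P hP hV := hP.tensor X Y (hX P hP hV) (hY P hP hV)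

end Pool.Agent.MP_b7753f_al
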