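import Mathlib.Algebra.Category.FGModuleCat.Abelian
import Mathlib.CategoryTheory.Idempotents.Basic
import Mathlib.CategoryTheory.EffectiveEpi.Comp
import Mathlib.CategoryTheory.ExtremalEpi
import Mathlib.RingTheory.RegularLocalRing.Defs
import Pool.Agent.MP_b7753f_al.Defs
import Mathlib.Algebra.Category.ModuleCat.Projective
import Mathlib.RingTheory.Henselian
import Mathlib.Algebra.CharP.Basic
import Mathlib.LinearAlgebra.TensorProduct.Matrix
import Mathlib.Algebra.Field.ZMod
import Mathlib.Algebra.Order.Ring.Star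
import Mathlib.RingTheory.PicardGroup
import Mathlib.RingTheory.RootsOfUnity.PrimitiveRoots
import Mathlib.GroupTheory.SpecificGroups.Dihedral

-- ======== part 0: formerly Pool.Agent.MP_b7753f_al.Image
section MrgPart0

/-!
# The essential image of a fully faithful tensor functor is a full tensor subcategory
-/

open CategoryTheory MonoidalCategory Limits Functor.LaxMonoidal Functor.OplaxMonoidal

namespace Pool.Agent.MP_b7753f_al

universe u v w

section
variable {C D : Type*} [Category* C] [Category* D] [MonoidalCategory C] [MonoidalCategory D]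

/-- A monoidal functor preserves exact pairings. -/
@[reducible] def mapPairing (J : C ⥤ D) [J.Monoidal] (X Y : C) [ExactPairing X Y] :
    ExactPairing (J.obj X) (J.obj Y) where
  coevaluation' := ε J ≫ J.map (η_ X Y) ≫ δ J X Y
  evaluation' := μ J Y X ≫ J.map (ε_ X Y) ≫ η J
  coevaluation_evaluation' := by
    have h := congrArg J.map (ExactPairing.coevaluation_evaluation X Y)
    simp only [J.map_comp, Functor.Monoidal.map_whiskerLeft, Functor.Monoidal.map_whiskerRight,
      Functor.Monoidal.map_associator_inv, Functor.Monoidal.map_rightUnitor,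
      Functor.Monoidal.map_leftUnitor_inv, Category.assoc, Functor.Monoidal.μ_δ_assoc] at h
    rw [cancel_epi] at h
    simp only [← Category.assoc] at h
    rw [cancel_mono] at h
    simp only [Category.assoc] at h
    simp only [MonoidalCategory.whiskerLeft_comp, comp_whiskerRight, Category.assoc]
    rw [reassoc_of% h]
    simp
  evaluation_coevaluation' := by
    have h := congrArg J.map (ExactPairing.evaluation_coevaluation X Y)
    simp only [J.map_comp, Functor.Monoidal.map_whiskerLeft, Functor.Monoidal.map_whiskerRight,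
      Functor.Monoidal.map_associator, Functor.Monoidal.map_leftUnitor,
      Functor.Monoidal.map_rightUnitor_inv, Category.assoc, Functor.Monoidal.μ_δ_assoc] at h
    rw [cancel_epi] at h
    simp only [← Category.assoc] at h
    rw [cancel_mono] at h
    simp only [Category.assoc] at h
    simp only [MonoidalCategory.whiskerLeft_comp, comp_whiskerRight, Category.assoc]
    rw [reassoc_of% h]
    simp

end

variable {k : Type u} [Field k] {G : Type v} [Group G] {Γ : Type w} [Group Γ]

theorem essImage_isTensorSub (J : FDRep k Γ ⥤ Semisimp k G) [J.Monoidal] [J.Full] [J.Faithful]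
    [J.Additive] : IsTensorSub J.essImage where
  unit := ⟨𝟙_ _, ⟨(Functor.Monoidal.εIso J).symm⟩⟩
  tensor := by
    rintro X Y ⟨M, ⟨e⟩⟩ ⟨N, ⟨e'⟩⟩
    exact ⟨M ⊗ N, ⟨(Functor.Monoidal.μIso J M N).symm ≪≫ (e ⊗ᵢ e')⟩⟩
  dual := by
    rintro X Y hp ⟨M, ⟨e⟩⟩
    let p1 : ExactPairing (J.obj M) (J.obj (Mᘁ)) := mapPairing J M (Mᘁ)
    let p2 : ExactPairing (J.obj M) Y := exactPairingCongrLeft e
    exact ⟨Mᘁ, ⟨rightDualIso p1 p2⟩⟩
  sum := by
    rintro X Y b hb ⟨M, ⟨e⟩⟩ ⟨N, ⟨e'⟩⟩
    have ht := IsBilimit.binary_total hb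
    refine ⟨M ⊞ N, ⟨⟨J.map biprod.fst ≫ e.hom ≫ b.inl + J.map biprod.snd ≫ e'.hom ≫ b.inr,
      b.fst ≫ e.inv ≫ J.map biprod.inl + b.snd ≫ e'.inv ≫ J.map biprod.inr, ?_, ?_⟩⟩⟩
    · simp only [Preadditive.add_comp, Preadditive.comp_add, Category.assoc,
        BinaryBicone.inl_fst_assoc, BinaryBicone.inl_snd_assoc, BinaryBicone.inr_fst_assoc,
        BinaryBicone.inr_snd_assoc, Iso.hom_inv_id_assoc, zero_comp, comp_zero, add_zero,
        zero_add]
      rw [← J.map_comp, ← J.map_comp, ← J.map_add, biprod.total, J.map_id]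
    · simp only [Preadditive.add_comp, Preadditive.comp_add, Category.assoc,
        ← J.map_comp_assoc, biprod.inl_fst, biprod.inl_snd, biprod.inr_fst, biprod.inr_snd,
        J.map_id, J.map_zero, Category.id_comp, Iso.inv_hom_id_assoc, zero_comp, comp_zero,
        add_zero, zero_add]
      exact ht
  summand := by
    rintro X Y r ⟨M, ⟨e⟩⟩
    obtain ⟨p, hp⟩ := J.map_surjective (e.hom ≫ r.r ≫ r.i ≫ e.inv)
    have hpp : p ≫ p = p := J.map_injective (by simp [hp])
    obtain ⟨N, i, q, h1, h2⟩ := IsIdempotentComplete.idempotents_split M p hpp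
    have h3 : J.map q ≫ J.map i = e.hom ≫ r.r ≫ r.i ≫ e.inv := by rw [← J.map_comp, h2, hp]
    have h4 : J.map i ≫ J.map q = 𝟙 _ := by rw [← J.map_comp, h1, J.map_id]
    refine ⟨N, ⟨⟨J.map i ≫ e.hom ≫ r.r, r.i ≫ e.inv ≫ J.map q, ?_, ?_⟩⟩⟩
    · simp only [Category.assoc]
      rw [← reassoc_of% h3, reassoc_of% h4, h4]
    · simp only [Category.assoc]
      rw [reassoc_of% h3]
      simp

/-- The corestriction of a braided functor to a monoidal full subcategory is braided. -/
@[reducible] noncomputable def liftBraided (P : ObjectProperty (Semisimp k G)) [P.IsMonoidal]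
    (J : FDRep k Γ ⥤ Semisimp k G) [J.Braided] (h : ∀ M, P (J.obj M)) : (P.lift J h).Braided :=
  let m : (P.lift J h).CoreMonoidal :=
    { εIso := P.isoMk (Functor.Monoidal.εIso J)
      μIso := fun X Y => P.isoMk (Functor.Monoidal.μIso J X Y)
      μIso_hom_natural_left := fun f X => by
        ext
        exact μ_natural_left J f X
      μIso_hom_natural_right := fun X f => by
        ext
        exact μ_natural_right J X f
      associativity := fun X Y Z => by
        ext
        exact Functor.LaxMonoidal.associativity J X Y Z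
      left_unitality := fun X => by
        ext
        exact Functor.LaxMonoidal.left_unitality J X
      right_unitality := fun X => by
        ext
        exact Functor.LaxMonoidal.right_unitality J X }
  { m.toMonoidal with
    braided := fun X Y => by
      ext
      exact Functor.LaxBraided.braided X Y }

theorem equiv_of_functor (V : FDRep k G) (J : FDRep k Γ ⥤ Semisimp k G) [J.Braided] [J.Full]
    [J.Faithful] [J.Additive] [J.Linear k] (hV : J.essImage ((bar k G).obj V))
    (hJ : ∀ M, gen V (J.obj M)) :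
    ∃ F : FDRep k Γ ⥤ (gen V).FullSubcategory,
      F.IsEquivalence ∧ F.Additive ∧ F.Linear k ∧ Nonempty F.Braided := by
  refine ⟨(gen V).lift J hJ, ?_, ?_, ?_, ⟨liftBraided _ J hJ⟩⟩
  · refine { faithful := inferInstance, full := inferInstance, essSurj := ⟨fun X => ?_⟩ }
    obtain ⟨M, ⟨e⟩⟩ := X.property _ (essImage_isTensorSub J) hV
    exact ⟨M, ⟨(gen V).isoMk e⟩⟩
  · exact ⟨fun {X Y f g} => by
      ext
      exact J.map_add⟩
  · exact ⟨fun {X Y} f r => by
      ext
      exact J.map_smul r f⟩

end Pool.Agent.MP_b7753f_al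

end MrgPart0

-- ======== part 1: formerly Pool.Agent.MP_b7753f_al.Model
section MrgPart1

/-!
# Splittings of a representation over a cyclic subgroup and the Brauer quotient

A model of a `Γ`-representation `M` is a `G`-representation `X` with a decomposition of the
restriction of `X` to `⟨h⟩` as `M` (trivial action) plus a relatively projective part.
In characteristic three `f ↦ p ∘ f ∘ i` is then a strict tensor functor preserving traces.
-/

open CategoryTheory MonoidalCategory Limits

namespace Pool.Agent.MP_b7753f_al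

universe u v w

variable {k : Type u} [Field k] {G : Type v} [Group G] {Γ : Type w} [Group Γ]

/-- The linear map underlying a morphism of representations. -/
abbrev lin {X Y : FDRep k G} (f : X ⟶ Y) : X →ₗ[k] Y := f.hom.hom.hom

theorem lin_comp {X Y Z : FDRep k G} (f : X ⟶ Y) (g : Y ⟶ Z) : lin (f ≫ g) = lin g ∘ₗ lin f := rfl

theorem lin_id (X : FDRep k G) : lin (𝟙 X) = LinearMap.id := rfl

theorem lin_add {X Y : FDRep k G} (f g : X ⟶ Y) : lin (f + g) = lin f + lin g := rfl

theorem lin_sub {X Y : FDRep k G} (f g : X ⟶ Y) : lin (f - g) = lin f - lin g := rfl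

theorem lin_zero {X Y : FDRep k G} : lin (0 : X ⟶ Y) = 0 := rfl

theorem lin_smul {X Y : FDRep k G} (c : k) (f : X ⟶ Y) : lin (c • f) = c • lin f := rfl

theorem lin_tensorHom {X Y X' Y' : FDRep k G} (f : X ⟶ Y) (g : X' ⟶ Y') :
    lin (f ⊗ₘ g) = TensorProduct.map (lin f) (lin g) := rfl

theorem lin_assoc (X Y Z : FDRep k G) :
    lin (α_ X Y Z).hom = (TensorProduct.assoc k X Y Z).toLinearMap :=
  congrArg (fun t => t.hom.hom) (Action.associator_hom_hom X Y Z)

theorem lin_leftUnitor (X : FDRep k G) : lin (λ_ X).hom = (TensorProduct.lid k X).toLinearMap :=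
  congrArg (fun t => t.hom.hom) (Action.leftUnitor_hom_hom X)

theorem lin_rightUnitor (X : FDRep k G) : lin (ρ_ X).hom = (TensorProduct.rid k X).toLinearMap :=
  congrArg (fun t => t.hom.hom) (Action.rightUnitor_hom_hom X)

theorem lin_mkHom {X Y : FDRep k G} (f : X →ₗ[k] Y) (h) : lin (mkHom f h) = f := rfl

theorem lin_injective {X Y : FDRep k G} {f g : X ⟶ Y} (h : lin f = lin g) : f = g := by
  ext1
  ext1
  exact h

theorem tensor_rho (X Y : FDRep k G) (g : G) :
    (X ⊗ Y).ρ g = TensorProduct.map (X.ρ g) (Y.ρ g) := rfl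

theorem rho_inv_comp (X : FDRep k G) (g : G) : X.ρ g⁻¹ ∘ₗ X.ρ g = LinearMap.id := by
  rw [← Module.End.mul_eq_comp, ← map_mul, inv_mul_cancel, map_one]
  rfl

theorem rho_comp_inv (X : FDRep k G) (g : G) : X.ρ g ∘ₗ X.ρ g⁻¹ = LinearMap.id := by
  rw [← Module.End.mul_eq_comp, ← map_mul, mul_inv_cancel, map_one]
  rfl

/-- A splitting of `X` over `⟨h⟩` with trivial part the underlying space of `M`. -/
structure Model (h : G) (M : FDRep k Γ) where
  X : FDRep k G
  i : M →ₗ[k] X
  p : X →ₗ[k] M
  s : X →ₗ[k] X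
  hi : X.ρ h ∘ₗ i = i
  hp : p ∘ₗ X.ρ h = p
  pi : p ∘ₗ i = LinearMap.id
  tot : i ∘ₗ p + (s + X.ρ h ∘ₗ s ∘ₗ X.ρ h⁻¹ + X.ρ h⁻¹ ∘ₗ s ∘ₗ X.ρ h) = LinearMap.id

variable {h : G} {M N L M' N' : FDRep k Γ}

theorem Model.hi' (A : Model h M) : A.X.ρ h⁻¹ ∘ₗ A.i = A.i := by
  conv_lhs => rw [← A.hi]
  rw [← LinearMap.comp_assoc, rho_inv_comp, LinearMap.id_comp]

theorem Model.hp' (A : Model h M) : A.p ∘ₗ A.X.ρ h⁻¹ = A.p := by
  conv_lhs => rw [← A.hp]
  rw [LinearMap.comp_assoc, rho_comp_inv, LinearMap.comp_id]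

/-- The Brauer quotient of a morphism. -/
noncomputable def Phi (A : Model h M) (B : Model h N) (f : A.X ⟶ B.X) : M →ₗ[k] N :=
  B.p ∘ₗ lin f ∘ₗ A.i

theorem Phi_id (A : Model h M) : Phi A A (𝟙 _) = LinearMap.id := A.pi

theorem Phi_add (A : Model h M) (B : Model h N) (f g : A.X ⟶ B.X) :
    Phi A B (f + g) = Phi A B f + Phi A B g := by
  simp only [Phi, lin_add, LinearMap.add_comp, LinearMap.comp_add]

theorem Phi_sub (A : Model h M) (B : Model h N) (f g : A.X ⟶ B.X) :
    Phi A B (f - g) = Phi A B f - Phi A B g := by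
  simp only [Phi, lin_sub, LinearMap.sub_comp, LinearMap.comp_sub]

theorem Phi_zero (A : Model h M) (B : Model h N) : Phi A B 0 = 0 := by
  simp only [Phi, lin_zero, LinearMap.zero_comp, LinearMap.comp_zero]

theorem Phi_smul (A : Model h M) (B : Model h N) (c : k) (f : A.X ⟶ B.X) :
    Phi A B (c • f) = c • Phi A B f := by
  simp only [Phi, lin_smul, LinearMap.smul_comp, LinearMap.comp_smul]

theorem three_eq {V : Type*} [AddCommGroup V] [Module k V] (h3 : (3 : k) = 0) (x : V) :
    x + x + x = 0 := by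
  have : x + x + x = (3 : k) • x := by module
  rw [this, h3, zero_smul]

theorem Phi_comp (h3 : (3 : k) = 0) (A : Model h M) (B : Model h N) (C : Model h L)
    (f : A.X ⟶ B.X) (g : B.X ⟶ C.X) : Phi A C (f ≫ g) = Phi B C g ∘ₗ Phi A B f := by
  have key : ∀ t : G, A.X.ρ t⁻¹ ∘ₗ A.i = A.i → C.p ∘ₗ C.X.ρ t = C.p →
      C.p ∘ₗ lin g ∘ₗ (B.X.ρ t ∘ₗ B.s ∘ₗ B.X.ρ t⁻¹) ∘ₗ lin f ∘ₗ A.i =
        C.p ∘ₗ lin g ∘ₗ B.s ∘ₗ lin f ∘ₗ A.i := fun t h1 h2 => by
    have e1 : B.X.ρ t⁻¹ ∘ₗ lin f ∘ₗ A.i = lin f ∘ₗ A.i := by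
      rw [← LinearMap.comp_assoc, ← lin_comm f, LinearMap.comp_assoc, h1]
    have e2 : C.p ∘ₗ lin g ∘ₗ B.X.ρ t = C.p ∘ₗ lin g := by
      rw [lin_comm g, ← LinearMap.comp_assoc, h2]
    simp only [LinearMap.comp_assoc, e1]
    simp only [← LinearMap.comp_assoc] at e2 ⊢
    rw [e2]
  have k1 := key h A.hi' C.hp
  have k2 := key h⁻¹ (by rw [inv_inv]; exact A.hi) C.hp'
  rw [inv_inv] at k2
  have e : Phi A C (f ≫ g) = C.p ∘ₗ lin g ∘ₗ LinearMap.id ∘ₗ lin f ∘ₗ A.i := rfl
  rw [e, ← B.tot]
  simp only [LinearMap.add_comp, LinearMap.comp_add]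
  rw [k1, k2, three_eq h3, add_zero]
  rfl

theorem tr_Phi (h3 : (3 : k) = 0) (A : Model h M) (f : A.X ⟶ A.X) :
    tr f = LinearMap.trace k M (Phi A A f) := by
  have key : ∀ t : G, LinearMap.trace k A.X (lin f ∘ₗ A.X.ρ t ∘ₗ A.s ∘ₗ A.X.ρ t⁻¹) =
      LinearMap.trace k A.X (lin f ∘ₗ A.s) := fun t => by
    rw [← LinearMap.comp_assoc, lin_comm f, LinearMap.comp_assoc, LinearMap.trace_comp_comm',
      LinearMap.comp_assoc, LinearMap.comp_assoc, rho_inv_comp, LinearMap.comp_id]
  have k2 := key h⁻¹
  rw [inv_inv] at k2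
  have e : tr f = LinearMap.trace k A.X (lin f ∘ₗ LinearMap.id) := rfl
  rw [e, ← A.tot]
  simp only [LinearMap.comp_add, map_add]
  rw [key h, k2, three_eq h3, add_zero, ← LinearMap.comp_assoc, LinearMap.trace_comp_comm']
  rfl

/-- The tensor product of two models. -/
@[reducible] noncomputable def Model.tensor (A : Model h M) (B : Model h N) : Model h (M ⊗ N) where
  X := A.X ⊗ B.X
  i := TensorProduct.map A.i B.i
  p := TensorProduct.map A.p B.p
  s := TensorProduct.map A.s LinearMap.id + TensorProduct.map (A.i ∘ₗ A.p) B.s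
  hi := by
    rw [tensor_rho]
    exact (TensorProduct.map_comp _ _ _ _).symm.trans (by rw [A.hi, B.hi])
  hp := by
    rw [tensor_rho]
    exact (TensorProduct.map_comp _ _ _ _).symm.trans (by rw [A.hp, B.hp])
  pi := (TensorProduct.map_comp _ _ _ _).symm.trans (by
    rw [A.pi, B.pi]
    exact TensorProduct.map_id)
  tot := by
    have e1 : A.X.ρ h ∘ₗ (A.i ∘ₗ A.p) ∘ₗ A.X.ρ h⁻¹ = A.i ∘ₗ A.p := by
      rw [LinearMap.comp_assoc, A.hp', ← LinearMap.comp_assoc, A.hi]
    have e2 : A.X.ρ h⁻¹ ∘ₗ (A.i ∘ₗ A.p) ∘ₗ A.X.ρ h = A.i ∘ₗ A.p := by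
      rw [LinearMap.comp_assoc, A.hp, ← LinearMap.comp_assoc, A.hi']
    have key : TensorProduct.map A.i B.i ∘ₗ TensorProduct.map A.p B.p +
        ((TensorProduct.map A.s LinearMap.id + TensorProduct.map (A.i ∘ₗ A.p) B.s) +
          TensorProduct.map (A.X.ρ h) (B.X.ρ h) ∘ₗ
            (TensorProduct.map A.s LinearMap.id + TensorProduct.map (A.i ∘ₗ A.p) B.s) ∘ₗ
              TensorProduct.map (A.X.ρ h⁻¹) (B.X.ρ h⁻¹) +
          TensorProduct.map (A.X.ρ h⁻¹) (B.X.ρ h⁻¹) ∘ₗ
            (TensorProduct.map A.s LinearMap.id + TensorProduct.map (A.i ∘ₗ A.p) B.s) ∘ₗ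
              TensorProduct.map (A.X.ρ h) (B.X.ρ h)) = LinearMap.id := by
      simp only [LinearMap.add_comp, LinearMap.comp_add, ← TensorProduct.map_comp, e1, e2,
        LinearMap.id_comp, rho_inv_comp, rho_comp_inv]
      have a1 := congrArg (fun t => TensorProduct.map t (LinearMap.id : B.X →ₗ[k] B.X)) A.tot
      have a2 := congrArg (fun t => TensorProduct.map (A.i ∘ₗ A.p) t) B.tot
      simp only [TensorProduct.map_add_left, TensorProduct.map_add_right,
        TensorProduct.map_id] at a1 a2
      rw [← a1, ← a2]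
      abel
    exact key

/-- The unit model. -/
@[reducible] noncomputable def Model.unit (h : G) : Model h (𝟙_ (FDRep k Γ)) where
  X := 𝟙_ _
  i := LinearMap.id
  p := LinearMap.id
  s := 0
  hi := rfl
  hp := rfl
  pi := rfl
  tot := by
    simp only [LinearMap.zero_comp, LinearMap.comp_zero, add_zero]
    rfl

theorem Phi_tensor (A : Model h M) (B : Model h N) (A' : Model h M') (B' : Model h N')
    (f : A.X ⟶ B.X) (g : A'.X ⟶ B'.X) :
    Phi (A.tensor A') (B.tensor B') (f ⊗ₘ g) = TensorProduct.map (Phi A B f) (Phi A' B' g) := by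
  have : TensorProduct.map B.p B'.p ∘ₗ TensorProduct.map (lin f) (lin g) ∘ₗ
      TensorProduct.map A.i A'.i = TensorProduct.map (Phi A B f) (Phi A' B' g) := by
    rw [← TensorProduct.map_comp, ← TensorProduct.map_comp]
    rfl
  exact this

theorem Model.pi_apply (A : Model h M) (x : M) : A.p (A.i x) = x :=
  LinearMap.congr_fun A.pi x

theorem Phi_assoc (A : Model h M) (B : Model h N) (C : Model h L) :
    Phi ((A.tensor B).tensor C) (A.tensor (B.tensor C)) (α_ A.X B.X C.X).hom =
      lin (α_ M N L).hom := by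
  have : TensorProduct.map A.p (TensorProduct.map B.p C.p) ∘ₗ
      (TensorProduct.assoc k A.X B.X C.X).toLinearMap ∘ₗ
        TensorProduct.map (TensorProduct.map A.i B.i) C.i =
      (TensorProduct.assoc k M N L).toLinearMap := by
    ext x y z
    simp [Model.pi_apply]
  rw [Phi, lin_assoc, lin_assoc]
  exact this

theorem Phi_leftUnitor (A : Model h M) :
    Phi ((Model.unit h).tensor A) A (λ_ A.X).hom = lin (λ_ M).hom := by
  have : A.p ∘ₗ (TensorProduct.lid k A.X).toLinearMap ∘ₗ TensorProduct.map LinearMap.id A.i =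
      (TensorProduct.lid k M).toLinearMap := by
    ext x
    simp [Model.pi_apply]
  rw [Phi, lin_leftUnitor, lin_leftUnitor]
  exact this

theorem Phi_rightUnitor (A : Model h M) :
    Phi (A.tensor (Model.unit h)) A (ρ_ A.X).hom = lin (ρ_ M).hom := by
  have : A.p ∘ₗ (TensorProduct.rid k A.X).toLinearMap ∘ₗ TensorProduct.map A.i LinearMap.id =
      (TensorProduct.rid k M).toLinearMap := by
    ext x
    simp [Model.pi_apply]
  rw [Phi, lin_rightUnitor, lin_rightUnitor]
  exact this

theorem Phi_braiding (A : Model h M) (B : Model h N) :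
    Phi (A.tensor B) (B.tensor A) (β_ A.X B.X).hom = lin (β_ M N).hom := by
  have : TensorProduct.map B.p A.p ∘ₗ (TensorProduct.comm k A.X B.X).toLinearMap ∘ₗ
      TensorProduct.map A.i B.i = (TensorProduct.comm k M N).toLinearMap := by
    ext x y
    simp [Model.pi_apply]
  exact this

theorem lin_comp_apply {X Y Z : FDRep k G} (f : X ⟶ Y) (g : Y ⟶ Z) (x : X) :
    lin g (lin f x) = lin (f ≫ g) x := rfl

theorem lin_comm_apply {X Y : FDRep k G} (f : X ⟶ Y) (g : G) (x : X) :
    lin f (X.ρ g x) = Y.ρ g (lin f x) :=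
  LinearMap.congr_fun (lin_comm f g) x

theorem Model.hi_apply (A : Model h M) (x : M) : A.X.ρ h (A.i x) = A.i x :=
  LinearMap.congr_fun A.hi x

theorem Model.hp_apply (A : Model h M) (x : A.X) : A.p (A.X.ρ h x) = A.p x :=
  LinearMap.congr_fun A.hp x

theorem Model.tot_apply (A : Model h M) (x : A.X) :
    A.i (A.p x) + (A.s x + A.X.ρ h (A.s (A.X.ρ h⁻¹ x)) + A.X.ρ h⁻¹ (A.s (A.X.ρ h x))) = x :=
  LinearMap.congr_fun A.tot x

/-- The model of a direct sum. -/
@[reducible] noncomputable def Model.sum (b : BinaryBicone M N)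
    (hb : b.fst ≫ b.inl + b.snd ≫ b.inr = 𝟙 b.pt) (A : Model h M) (B : Model h N) :
    Model h b.pt where
  X := A.X ⊞ B.X
  i := lin biprod.inl ∘ₗ A.i ∘ₗ lin b.fst + lin biprod.inr ∘ₗ B.i ∘ₗ lin b.snd
  p := lin b.inl ∘ₗ A.p ∘ₗ lin biprod.fst + lin b.inr ∘ₗ B.p ∘ₗ lin biprod.snd
  s := lin biprod.inl ∘ₗ A.s ∘ₗ lin biprod.fst + lin biprod.inr ∘ₗ B.s ∘ₗ lin biprod.snd
  hi := by
    ext x
    simp only [LinearMap.comp_apply, LinearMap.add_apply, map_add, ← lin_comm_apply,
      Model.hi_apply]
  hp := by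
    ext x
    simp only [LinearMap.comp_apply, LinearMap.add_apply, lin_comm_apply, Model.hp_apply]
  pi := by
    ext x
    simp only [LinearMap.comp_apply, LinearMap.add_apply, map_add, lin_comp_apply,
      biprod.inl_fst, biprod.inl_snd, biprod.inr_fst, biprod.inr_snd, lin_id, lin_zero,
      LinearMap.id_apply, LinearMap.zero_apply, map_zero, add_zero, zero_add, Model.pi_apply]
    exact LinearMap.congr_fun (congrArg lin hb) x
  tot := by
    ext x
    have e : lin biprod.inl (lin biprod.fst x) + lin biprod.inr (lin biprod.snd x) = x :=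
      LinearMap.congr_fun (congrArg lin (biprod.total (X := A.X) (Y := B.X))) x
    rw [← A.tot_apply (lin biprod.fst x), ← B.tot_apply (lin biprod.snd x)] at e
    simp only [map_add, lin_comm_apply] at e
    simp only [LinearMap.comp_apply, LinearMap.add_apply, map_add, lin_comp_apply,
      BinaryBicone.inl_fst, BinaryBicone.inl_snd, BinaryBicone.inr_fst, BinaryBicone.inr_snd,
      lin_id, lin_zero, LinearMap.id_apply, LinearMap.zero_apply, map_zero, add_zero, zero_add,
      lin_comm_apply]
    conv_rhs => rw [← e]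
    abel

theorem Phi_inl (b : BinaryBicone M N) (hb) (A : Model h M) (B : Model h N) :
    Phi A (Model.sum b hb A B) biprod.inl = lin b.inl := by
  ext x
  simp only [Phi, Model.sum, LinearMap.comp_apply, LinearMap.add_apply, lin_comp_apply,
    biprod.inl_fst, biprod.inl_snd, lin_id, lin_zero, LinearMap.id_apply, LinearMap.zero_apply,
    map_zero, add_zero, Model.pi_apply]

theorem Phi_inr (b : BinaryBicone M N) (hb) (A : Model h M) (B : Model h N) :
    Phi B (Model.sum b hb A B) biprod.inr = lin b.inr := by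
  ext x
  simp only [Phi, Model.sum, LinearMap.comp_apply, LinearMap.add_apply, lin_comp_apply,
    biprod.inr_fst, biprod.inr_snd, lin_id, lin_zero, LinearMap.id_apply, LinearMap.zero_apply,
    map_zero, zero_add, Model.pi_apply]

theorem Phi_fst (b : BinaryBicone M N) (hb) (A : Model h M) (B : Model h N) :
    Phi (Model.sum b hb A B) A biprod.fst = lin b.fst := by
  ext x
  simp only [Phi, Model.sum, LinearMap.comp_apply, LinearMap.add_apply, map_add, lin_comp_apply,
    biprod.inl_fst, biprod.inr_fst, lin_id, lin_zero, LinearMap.id_apply, LinearMap.zero_apply,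
    map_zero, add_zero, Model.pi_apply]

theorem Phi_snd (b : BinaryBicone M N) (hb) (A : Model h M) (B : Model h N) :
    Phi (Model.sum b hb A B) B biprod.snd = lin b.snd := by
  ext x
  simp only [Phi, Model.sum, LinearMap.comp_apply, LinearMap.add_apply, map_add, lin_comp_apply,
    biprod.inl_snd, biprod.inr_snd, lin_id, lin_zero, LinearMap.id_apply, LinearMap.zero_apply,
    map_zero, zero_add, Model.pi_apply]

/-- The model with trivial action. -/
@[reducible] noncomputable def Model.triv (h : G) (M : FDRep k Γ) : Model h M where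
  X := FDRep.of (Representation.trivial k G M)
  i := LinearMap.id
  p := LinearMap.id
  s := 0
  hi := rfl
  hp := rfl
  pi := rfl
  tot := by
    simp only [LinearMap.zero_comp, LinearMap.comp_zero, add_zero]
    rfl

end Pool.Agent.MP_b7753f_al

end MrgPart1

-- ======== part 2: formerly Pool.Agent.MP_b7753f_al.Good
section MrgPart2

/-!
# Reconstruction of `rep Γ` inside the semisimplification from finitely many basic models
-/

open CategoryTheory MonoidalCategory Limits

namespace Pool.Agent.MP_b7753f_al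

universe u v w

variable {k : Type u} [Field k] {G : Type v} [Group G] {Γ : Type w} [Group Γ]
variable {h : G} {M N K M' N' : FDRep k Γ}

/-- Equivariance of a linear map between `Γ`-representations. -/
def Eqv (M N : FDRep k Γ) (u : M →ₗ[k] N) : Prop := ∀ γ, u ∘ₗ M.ρ γ = N.ρ γ ∘ₗ u

theorem Eqv.comp {u : M →ₗ[k] N} {v : N →ₗ[k] K} (hv : Eqv N K v) (hu : Eqv M N u) :
    Eqv M K (v ∘ₗ u) := fun γ => by
  rw [LinearMap.comp_assoc, hu γ, ← LinearMap.comp_assoc, hv γ, LinearMap.comp_assoc]

theorem Eqv.add {u v : M →ₗ[k] N} (hu : Eqv M N u) (hv : Eqv M N v) : Eqv M N (u + v) :=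
  fun γ => by rw [LinearMap.add_comp, LinearMap.comp_add, hu γ, hv γ]

theorem Eqv.zero : Eqv M N 0 := fun γ => by rw [LinearMap.zero_comp, LinearMap.comp_zero]

theorem eqv_lin (f : M ⟶ N) : Eqv M N (lin f) := lin_comm f

theorem Eqv.tensor {u : M →ₗ[k] N} {v : M' →ₗ[k] N'} (hu : Eqv M N u) (hv : Eqv M' N' v) :
    Eqv (M ⊗ M') (N ⊗ N') (TensorProduct.map u v) := fun γ => by
  have : TensorProduct.map u v ∘ₗ TensorProduct.map (M.ρ γ) (M'.ρ γ) =
      TensorProduct.map (N.ρ γ) (N'.ρ γ) ∘ₗ TensorProduct.map u v := by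
    rw [← TensorProduct.map_comp, ← TensorProduct.map_comp, hu γ, hv γ]
  exact this

/-- Nondegeneracy of the trace pairing for a finite group of invertible order. -/
theorem exists_tr_ne_zero [Fintype Γ] (hΓ : (Fintype.card Γ : k) ≠ 0) (u : M ⟶ N) (hu : u ≠ 0) :
    ∃ v : N ⟶ M, tr (u ≫ v) ≠ 0 := by
  have h1 : lin u ≠ 0 := fun h0 => hu (lin_injective h0)
  obtain ⟨x, hx⟩ : ∃ x, lin u x ≠ 0 := by
    by_contra hc
    push Not at hc
    exact h1 (LinearMap.ext hc)
  obtain ⟨φ, hφ⟩ := Module.Projective.exists_dual_ne_zero k hx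
  let v0 : N →ₗ[k] M := φ.smulRight x
  have hv0 : LinearMap.trace k M (v0 ∘ₗ lin u) = φ (lin u x) := by
    have : v0 ∘ₗ lin u = (φ ∘ₗ lin u).smulRight x := by
      ext y
      simp [v0]
    rw [this, LinearMap.trace_smulRight]
    rfl
  let v1 : N →ₗ[k] M := ∑ γ : Γ, M.ρ γ ∘ₗ v0 ∘ₗ N.ρ γ⁻¹
  have he : ∀ g, v1 ∘ₗ N.ρ g = M.ρ g ∘ₗ v1 := fun g => by
    ext y
    simp only [v1, LinearMap.comp_apply, LinearMap.sum_apply, map_sum]
    refine (Fintype.sum_equiv (Equiv.mulLeft g) _ _ fun γ => ?_).symm
    simp only [Equiv.coe_mulLeft, mul_inv_rev, map_mul, Module.End.mul_apply]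
    have := LinearMap.congr_fun (rho_inv_comp N g) y
    simp only [LinearMap.comp_apply, LinearMap.id_apply] at this
    rw [this]
  refine ⟨mkHom v1 he, ?_⟩
  have e : tr (u ≫ mkHom v1 he) = LinearMap.trace k M (v1 ∘ₗ lin u) := rfl
  have e2 : ∀ γ : Γ, LinearMap.trace k M ((M.ρ γ ∘ₗ v0 ∘ₗ N.ρ γ⁻¹) ∘ₗ lin u) = φ (lin u x) :=
    fun γ => by
      rw [LinearMap.comp_assoc, LinearMap.comp_assoc, ← lin_comm u, LinearMap.trace_comp_comm',
        LinearMap.comp_assoc, LinearMap.comp_assoc, rho_inv_comp, LinearMap.comp_id, hv0]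
  have e3 : v1 ∘ₗ lin u = ∑ γ : Γ, (M.ρ γ ∘ₗ v0 ∘ₗ N.ρ γ⁻¹) ∘ₗ lin u := by
    ext y
    simp only [v1, LinearMap.comp_apply, LinearMap.sum_apply]
  rw [e, e3, map_sum]
  simp only [e2, Finset.sum_const, Finset.card_univ, nsmul_eq_mul]
  exact mul_ne_zero hΓ hφ

variable {ι : Type} {L : ι → FDRep k Γ} (B : ∀ c, Model h (L c))

/-- Endomorphisms of `M` that factor through a basic model. -/
def gens (A : Model h M) : AddSubmonoid (M →ₗ[k] M) :=
  AddSubmonoid.closure {u | ∃ (c : ι) (p : (B c).X ⟶ A.X) (q : A.X ⟶ (B c).X),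
    Eqv (L c) M (Phi (B c) A p) ∧ u = Phi (B c) A p ∘ₗ Phi A (B c) q}

/-- A model is good if the identity is a sum of maps through basic models. -/
def Good (A : Model h M) : Prop := LinearMap.id ∈ gens B A

theorem gens_induction {A : Model h M} (P : (M →ₗ[k] M) → Prop) (h0 : P 0)
    (h1 : ∀ (c : ι) (p : (B c).X ⟶ A.X) (q : A.X ⟶ (B c).X), Eqv (L c) M (Phi (B c) A p) →
      P (Phi (B c) A p ∘ₗ Phi A (B c) q))
    (h2 : ∀ s t, P s → P t → P (s + t)) {u : M →ₗ[k] M} (hu : u ∈ gens B A) : P u := by
  induction hu using AddSubmonoid.closure_induction with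
  | mem x hx =>
    obtain ⟨c, p, q, he, rfl⟩ := hx
    exact h1 c p q he
  | zero => exact h0
  | add s t _ _ hs ht => exact h2 s t hs ht

theorem mem_gens {A : Model h M} (c : ι) (p : (B c).X ⟶ A.X) (q : A.X ⟶ (B c).X)
    (he : Eqv (L c) M (Phi (B c) A p)) : Phi (B c) A p ∘ₗ Phi A (B c) q ∈ gens B A :=
  AddSubmonoid.subset_closure ⟨c, p, q, he, rfl⟩

variable {B}

theorem Good.conj (h3 : (3 : k) = 0) {A : Model h M} (hA : Good B A) {C : Model h N}
    (p : A.X ⟶ C.X) (q : C.X ⟶ A.X) (he : Eqv M N (Phi A C p)) :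
    Phi A C p ∘ₗ Phi C A q ∈ gens B C := by
  have := gens_induction B (fun u => Phi A C p ∘ₗ u ∘ₗ Phi C A q ∈ gens B C) ?_ ?_ ?_ hA
  · exact this
  · rw [LinearMap.zero_comp, LinearMap.comp_zero]
    exact zero_mem _
  · intro c p' q' he'
    have := mem_gens B c (p' ≫ p) (q ≫ q') (by
      rw [Phi_comp h3 _ A]
      exact he.comp he')
    rw [Phi_comp h3 _ A, Phi_comp h3 _ A] at this
    exact this
  · intro s t hs ht
    rw [LinearMap.add_comp, LinearMap.comp_add]
    exact add_mem hs ht

theorem good_basic (c : ι) : Good B (B c) := by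
  have := mem_gens B c (𝟙 _) (𝟙 _) (by
    rw [Phi_id]
    exact fun _ => rfl)
  rwa [Phi_id] at this

theorem Good.sum (h3 : (3 : k) = 0) (b : BinaryBicone M N) (hb) {A : Model h M} {C : Model h N}
    (hA : Good B A) (hC : Good B C) : Good B (Model.sum b hb A C) := by
  have h1 := hA.conj h3 (C := Model.sum b hb A C) biprod.inl biprod.fst (by
    rw [Phi_inl]
    exact eqv_lin _)
  have h2 := hC.conj h3 (C := Model.sum b hb A C) biprod.inr biprod.snd (by
    rw [Phi_inr]
    exact eqv_lin _)
  rw [Phi_inl, Phi_fst] at h1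
  rw [Phi_inr, Phi_snd] at h2
  have h4 : lin b.inl ∘ₗ lin b.fst + lin b.inr ∘ₗ lin b.snd = LinearMap.id := congrArg lin hb
  have := add_mem h1 h2
  rwa [h4] at this

variable (B) in
/-- The finitely many facts about the basic models that are needed. -/
structure Hyp : Prop where
  three : (3 : k) = 0
  eqv : ∀ c c' f, Eqv (L c) (L c') (Phi (B c) (B c') f)
  full : ∀ c c' u, Eqv (L c) (L c') u → ∃ f, Phi (B c) (B c') f = u
  tens : ∀ c c', Good B ((B c).tensor (B c'))
  unit : Good B (Model.unit h)
  nondeg : ∀ (M N : FDRep k Γ) (u : M ⟶ N), u ≠ 0 → ∃ v : N ⟶ M, tr (u ≫ v) ≠ 0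
  cover : ∀ M : FDRep k Γ, Nontrivial M →
    ∃ (c : ι) (u : L c ⟶ M) (v : M ⟶ L c), u ≫ v = 𝟙 _ ∧ Nontrivial (L c)

theorem Hyp.eqv_of_basic (H : Hyp B) {A : Model h M} (hA : Good B A) (c : ι)
    (f : (B c).X ⟶ A.X) : Eqv (L c) M (Phi (B c) A f) := by
  have := gens_induction B (fun u => Eqv (L c) M (u ∘ₗ Phi (B c) A f)) ?_ ?_ ?_ hA
  · exact this
  · rw [LinearMap.zero_comp]
    exact Eqv.zero
  · intro c' p q he
    rw [LinearMap.comp_assoc, ← Phi_comp H.three]
    exact he.comp (H.eqv _ _ _)
  · intro s t hs ht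
    rw [LinearMap.add_comp]
    exact hs.add ht

theorem Hyp.eqv_Phi (H : Hyp B) {A : Model h M} (hA : Good B A) {C : Model h N} (hC : Good B C)
    (f : A.X ⟶ C.X) : Eqv M N (Phi A C f) := fun γ => by
  have := gens_induction B
    (fun u => (Phi A C f ∘ₗ M.ρ γ) ∘ₗ u = (N.ρ γ ∘ₗ Phi A C f) ∘ₗ u) ?_ ?_ ?_ hA
  · exact this
  · rw [LinearMap.comp_zero, LinearMap.comp_zero]
  · intro c p q he
    have h1 := H.eqv_of_basic hC c (p ≫ f) γ
    rw [Phi_comp H.three _ A] at h1
    rw [← LinearMap.comp_assoc, ← LinearMap.comp_assoc, LinearMap.comp_assoc _ (M.ρ γ), ← he γ,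
      ← LinearMap.comp_assoc, h1, LinearMap.comp_assoc _ _ (N.ρ γ)]
    rfl
  · intro s t hs ht
    rw [LinearMap.comp_add, LinearMap.comp_add, hs, ht]

theorem Hyp.full_Phi (H : Hyp B) {A : Model h M} (hA : Good B A) {C : Model h N} (hC : Good B C)
    (u : M →ₗ[k] N) (hu : Eqv M N u) : ∃ f, Phi A C f = u := by
  have := gens_induction B (fun s => ∃ f, Phi A C f = u ∘ₗ s) ?_ ?_ ?_ hA
  · exact this
  · exact ⟨0, by rw [Phi_zero, LinearMap.comp_zero]⟩
  · intro c p q he
    have := gens_induction B (fun t => ∃ f, Phi (B c) C f = t ∘ₗ u ∘ₗ Phi (B c) A p) ?_ ?_ ?_ hC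
    · obtain ⟨f, hf⟩ := this
      exact ⟨q ≫ f, by
        rw [Phi_comp H.three _ (B c), hf]
        rfl⟩
    · exact ⟨0, by rw [Phi_zero, LinearMap.zero_comp]⟩
    · intro c' p' q' _
      obtain ⟨f, hf⟩ := H.full c c' _
        ((H.eqv_Phi hC (good_basic c') q').comp (hu.comp he))
      exact ⟨f ≫ p', by
        rw [Phi_comp H.three _ (B c'), hf]
        rfl⟩
    · rintro s t ⟨f, hf⟩ ⟨g, hg⟩
      exact ⟨f + g, by rw [Phi_add, hf, hg, LinearMap.add_comp]⟩
  · rintro s t ⟨f, hf⟩ ⟨g, hg⟩
    exact ⟨f + g, by rw [Phi_add, hf, hg, LinearMap.comp_add]⟩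

theorem Hyp.good_tensor (H : Hyp B) {A : Model h M} (hA : Good B A) {C : Model h N}
    (hC : Good B C) : Good B (A.tensor C) := by
  have := gens_induction B
    (fun s => TensorProduct.map s (LinearMap.id : N →ₗ[k] N) ∈ gens B (A.tensor C)) ?_ ?_ ?_ hA
  · rwa [TensorProduct.map_id] at this
  · rw [TensorProduct.map_zero_left]
    exact zero_mem _
  · intro c p q he
    refine gens_induction B (fun t => TensorProduct.map (Phi (B c) A p ∘ₗ Phi A (B c) q) t ∈
      gens B (A.tensor C)) ?_ ?_ ?_ hC
    · rw [TensorProduct.map_zero_right]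
      exact zero_mem _
    · intro c' p' q' he'
      have := (H.tens c c').conj H.three (C := A.tensor C) (p ⊗ₘ p') (q ⊗ₘ q') (by
        rw [Phi_tensor]
        exact he.tensor he')
      rw [Phi_tensor, Phi_tensor] at this
      rw [TensorProduct.map_comp]
      exact this
    · intro s t hs ht
      rw [TensorProduct.map_add_right]
      exact add_mem hs ht
  · intro s t hs ht
    rw [TensorProduct.map_add_left]
    exact add_mem hs ht

theorem Hyp.exists_good (H : Hyp B) (M : FDRep k Γ) : ∃ A : Model h M, Good B A := by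
  induction hn : Module.finrank k M using Nat.strong_induction_on generalizing M with
  | _ n ih =>
  rcases subsingleton_or_nontrivial M with hM | hM
  · refine ⟨Model.triv h M, ?_⟩
    have : (LinearMap.id : M →ₗ[k] M) = 0 := Subsingleton.elim _ _
    unfold Good
    rw [this]
    exact zero_mem _
  · obtain ⟨c, u, v, huv, hc⟩ := H.cover M hM
    have hp : (𝟙 M - v ≫ u) ≫ (𝟙 M - v ≫ u) = 𝟙 M - v ≫ u := by
      simp [reassoc_of% huv]
    obtain ⟨N, i, e, h1, h2⟩ := IsIdempotentComplete.idempotents_split M _ hp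
    have h3 : u ≫ e = 0 := by
      have : u ≫ e ≫ i ≫ e = 0 := by simp [reassoc_of% h2, reassoc_of% huv]
      simpa [h1] using this
    have h4 : i ≫ v = 0 := by
      have : i ≫ e ≫ i ≫ v = 0 := by simp [reassoc_of% h2, huv]
      simpa [reassoc_of% h1] using this
    let b : BinaryBicone (L c) N :=
      { pt := M, fst := v, snd := e, inl := u, inr := i, inl_fst := huv, inl_snd := h3,
        inr_fst := h4, inr_snd := h1 }
    have hb : b.fst ≫ b.inl + b.snd ≫ b.inr = 𝟙 b.pt := by simp [b, h2]
    have hlt : Module.finrank k N < n := by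
      have hs : Function.Surjective (lin e) := fun y =>
        ⟨lin i y, LinearMap.congr_fun (congrArg lin h1) y⟩
      obtain ⟨x, hx⟩ := exists_ne (0 : L c)
      have hx' : lin u x ≠ 0 := fun h0 => hx (by
        have := LinearMap.congr_fun (congrArg lin huv) x
        rw [lin_comp, LinearMap.comp_apply, h0, map_zero] at this
        exact this.symm)
      have hk : lin u x ∈ LinearMap.ker (lin e) := LinearMap.congr_fun (congrArg lin h3) x
      have h5 := LinearMap.finrank_range_add_finrank_ker (lin e)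
      rw [LinearMap.range_eq_top.2 hs, finrank_top, hn] at h5
      have h6 : 0 < Module.finrank k (LinearMap.ker (lin e)) :=
        Module.finrank_pos_iff_exists_ne_zero.2 ⟨⟨_, hk⟩, fun h0 => hx' (congrArg Subtype.val h0)⟩
      omega
    obtain ⟨C, hC⟩ := ih _ hlt N rfl
    exact ⟨Model.sum b hb (B c) C, (good_basic c).sum H.three b hb hC⟩

theorem negligible_of_Phi (h3 : (3 : k) = 0) (A : Model h M) (C : Model h N) (f : A.X ⟶ C.X)
    (hf : Phi A C f = 0) : Negligible f := fun g => by
  rw [tr_Phi h3 A, Phi_comp h3 _ C, hf, LinearMap.comp_zero, map_zero]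

theorem bar_eq_of_Phi (h3 : (3 : k) = 0) (A : Model h M) (C : Model h N) (f g : A.X ⟶ C.X)
    (hf : Phi A C f = Phi A C g) : (bar k G).map f = (bar k G).map g :=
  CategoryTheory.Quotient.sound _ (negligible_of_Phi h3 A C _ (by rw [Phi_sub, hf, sub_self]))

theorem Hyp.Phi_eq_of_bar (H : Hyp B) {A : Model h M} (hA : Good B A) {C : Model h N}
    (hC : Good B C) (f g : A.X ⟶ C.X) (hf : (bar k G).map f = (bar k G).map g) :
    Phi A C f = Phi A C g := by
  have hn : Negligible (f - g) := (CategoryTheory.Quotient.functor_map_eq_iff _ f g).1 hf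
  rw [← sub_eq_zero, ← Phi_sub]
  by_contra hc
  obtain ⟨v, hv⟩ := H.nondeg M N (mkHom _ (H.eqv_Phi hA hC (f - g))) fun h0 => hc (congrArg lin h0)
  obtain ⟨e, he⟩ := H.full_Phi hC hA (lin v) (eqv_lin v)
  have := hn e
  rw [tr_Phi H.three A, Phi_comp H.three _ C, he] at this
  exact hv this

theorem gen_isTensorSub (V : FDRep k G) : IsTensorSub (gen V) where
  unit P hP _ := hP.unit
  tensor X Y hX hY P hP hV := hP.tensor X Y (hX P hP hV) (hY P hP hV)
  dual X Y e hX P hP hV := hP.dual X Y e (hX P hP hV)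
  sum X Y b hb hX hY P hP hV := hP.sum X Y b hb (hX P hP hV) (hY P hP hV)
  summand X Y r hX P hP hV := hP.summand X Y r (hX P hP hV)

theorem gen_biprod (V X Y : FDRep k G) (hX : gen V ((bar k G).obj X))
    (hY : gen V ((bar k G).obj Y)) : gen V ((bar k G).obj (X ⊞ Y)) :=
  (gen_isTensorSub V).sum _ _ ((bar k G).mapBinaryBicone (BinaryBiproduct.bicone X Y))
    (isBinaryBilimitOfTotal _ (congrArg (bar k G).map biprod.total)) hX hY

theorem Good.mem_gen (h3 : (3 : k) = 0) (V : FDRep k G)
    (hV : ∀ c, gen V ((bar k G).obj (B c).X)) {A : Model h M} (hA : Good B A) :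
    gen V ((bar k G).obj A.X) := by
  have := gens_induction B (fun u => ∃ (Y : FDRep k G) (p : Y ⟶ A.X) (q : A.X ⟶ Y),
    gen V ((bar k G).obj Y) ∧ Phi A A (q ≫ p) = u) ?_ ?_ ?_ hA
  · obtain ⟨Y, p, q, hY, e⟩ := this
    refine (gen_isTensorSub V).summand _ _ ⟨(bar k G).map q, (bar k G).map p, ?_⟩ hY
    rw [← (bar k G).map_comp, ← (bar k G).map_id]
    exact bar_eq_of_Phi h3 A A _ _ (by rw [e, Phi_id])
  · exact ⟨𝟙_ _, 0, 0, (gen_isTensorSub V).unit, by rw [comp_zero, Phi_zero]⟩
  · intro c p q _
    exact ⟨_, p, q, hV c, Phi_comp h3 _ (B c) _ _ _⟩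
  · rintro s t ⟨Y, p, q, hY, e⟩ ⟨Y', p', q', hY', e'⟩
    exact ⟨Y ⊞ Y', biprod.desc p p', biprod.lift q q', gen_biprod V _ _ hY hY', by
      rw [biprod.lift_desc, Phi_add, e, e']⟩

end Pool.Agent.MP_b7753f_al

end MrgPart2

-- ======== part 3: formerly Pool.Agent.MP_b7753f_al.Recon
section MrgPart3

/-!
# The tensor functor `rep Γ ⥤ Semisimp` built from good models
-/

open CategoryTheory MonoidalCategory Limits

namespace Pool.Agent.MP_b7753f_al

universe u v w

variable {k : Type u} [Field k] {G : Type v} [Group G] {Γ : Type w} [Group Γ]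
variable {h : G} {M N K M' N' : FDRep k Γ}
variable {ι : Type} {L : ι → FDRep k Γ} {B : ∀ c, Model h (L c)}

theorem bar_whiskerLeft (X : FDRep k G) {Y Z : FDRep k G} (f : Y ⟶ Z) :
    (bar k G).obj X ◁ (bar k G).map f = (bar k G).map (X ◁ f) := rfl

theorem bar_whiskerRight {X Y : FDRep k G} (f : X ⟶ Y) (Z : FDRep k G) :
    (bar k G).map f ▷ (bar k G).obj Z = (bar k G).map (f ▷ Z) := rfl

variable (B) in
/-- A good model. -/
structure GM (M : FDRep k Γ) where
  A : Model h M
  good : Good B A

/-- The object of the semisimplification given by a good model. -/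
abbrev GM.obj (A : GM B M) : Semisimp k G := (bar k G).obj A.A.X

variable (H : Hyp B)

/-- Tensor product of good models. -/
@[reducible] noncomputable def GM.tensor (A : GM B M) (C : GM B N) : GM B (M ⊗ N) :=
  ⟨A.A.tensor C.A, H.good_tensor A.good C.good⟩

/-- The unit as a good model. -/
@[reducible] noncomputable def GM.unit : GM B (𝟙_ (FDRep k Γ)) := ⟨Model.unit h, H.unit⟩

/-- A chosen good model of each representation of `Γ`. -/
noncomputable def GM.choice (M : FDRep k Γ) : GM B M :=
  ⟨(H.exists_good M).choose, (H.exists_good M).choose_spec⟩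

/-- The morphism of the semisimplification attached to a `Γ`-morphism. -/
noncomputable def lift (A : GM B M) (C : GM B N) (u : M ⟶ N) : A.obj ⟶ C.obj :=
  (bar k G).map (H.full_Phi A.good C.good (lin u) (eqv_lin u)).choose

theorem lift_eq (A : GM B M) (C : GM B N) (u : M ⟶ N) (f : A.A.X ⟶ C.A.X)
    (hf : Phi A.A C.A f = lin u) : lift H A C u = (bar k G).map f :=
  bar_eq_of_Phi H.three A.A C.A _ _
    ((H.full_Phi A.good C.good (lin u) (eqv_lin u)).choose_spec.trans hf.symm)

theorem exists_lift (A : GM B M) (C : GM B N) (u : M ⟶ N) :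
    ∃ f, Phi A.A C.A f = lin u ∧ lift H A C u = (bar k G).map f :=
  ⟨_, (H.full_Phi A.good C.good (lin u) (eqv_lin u)).choose_spec, rfl⟩

theorem lift_id (A : GM B M) : lift H A A (𝟙 M) = 𝟙 _ :=
  lift_eq H A A _ (𝟙 _) (Phi_id _)

theorem lift_comp (A : GM B M) (C : GM B N) (D : GM B K) (u : M ⟶ N) (v : N ⟶ K) :
    lift H A C u ≫ lift H C D v = lift H A D (u ≫ v) := by
  obtain ⟨f, hf, e⟩ := exists_lift H A C u
  obtain ⟨g, hg, e'⟩ := exists_lift H C D v
  rw [e, e', ← (bar k G).map_comp]
  exact (lift_eq H A D _ _ (by rw [Phi_comp H.three _ C.A, hf, hg, lin_comp])).symm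

theorem lift_add (A : GM B M) (C : GM B N) (u v : M ⟶ N) :
    lift H A C (u + v) = lift H A C u + lift H A C v := by
  obtain ⟨f, hf, e⟩ := exists_lift H A C u
  obtain ⟨g, hg, e'⟩ := exists_lift H A C v
  rw [e, e', ← (bar k G).map_add]
  exact lift_eq H A C _ _ (by rw [Phi_add, hf, hg, lin_add])

theorem lift_smul (A : GM B M) (C : GM B N) (c : k) (u : M ⟶ N) :
    lift H A C (c • u) = c • lift H A C u := by
  obtain ⟨f, hf, e⟩ := exists_lift H A C u
  rw [e, ← (bar k G).map_smul]
  exact lift_eq H A C _ _ (by rw [Phi_smul, hf, lin_smul])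

theorem lift_injective (A : GM B M) (C : GM B N) (u v : M ⟶ N)
    (huv : lift H A C u = lift H A C v) : u = v := by
  obtain ⟨f, hf, e⟩ := exists_lift H A C u
  obtain ⟨g, hg, e'⟩ := exists_lift H A C v
  rw [e, e'] at huv
  exact lin_injective (hf.symm.trans ((H.Phi_eq_of_bar A.good C.good f g huv).trans hg))

theorem lift_surjective (A : GM B M) (C : GM B N) (t : A.obj ⟶ C.obj) :
    ∃ u, lift H A C u = t := by
  obtain ⟨f, rfl⟩ := (bar k G).map_surjective t
  exact ⟨mkHom _ (H.eqv_Phi A.good C.good f), lift_eq H A C _ _ rfl⟩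

theorem lift_whiskerRight (A : GM B M) (C : GM B N) (D : GM B K) (u : M ⟶ N) :
    lift H A C u ▷ D.obj = lift H (A.tensor H D) (C.tensor H D) (u ▷ K) := by
  obtain ⟨f, hf, e⟩ := exists_lift H A C u
  rw [e, bar_whiskerRight]
  refine (lift_eq H (A.tensor H D) (C.tensor H D) _ (f ▷ D.A.X) ?_).symm
  rw [← tensorHom_id, ← tensorHom_id, Phi_tensor, hf, Phi_id]
  rfl

theorem lift_whiskerLeft (D : GM B K) (A : GM B M) (C : GM B N) (u : M ⟶ N) :
    D.obj ◁ lift H A C u = lift H (D.tensor H A) (D.tensor H C) (K ◁ u) := by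
  obtain ⟨f, hf, e⟩ := exists_lift H A C u
  rw [e, bar_whiskerLeft]
  refine (lift_eq H (D.tensor H A) (D.tensor H C) _ (D.A.X ◁ f) ?_).symm
  rw [← id_tensorHom, ← id_tensorHom, Phi_tensor, hf, Phi_id]
  rfl

theorem lift_assoc (A : GM B M) (C : GM B N) (D : GM B K) :
    (α_ A.obj C.obj D.obj).hom =
      lift H ((A.tensor H C).tensor H D) (A.tensor H (C.tensor H D)) (α_ M N K).hom :=
  (lift_eq H ((A.tensor H C).tensor H D) (A.tensor H (C.tensor H D)) _ _
    (Phi_assoc A.A C.A D.A)).symm

theorem lift_leftUnitor (A : GM B M) :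
    (λ_ A.obj).hom = lift H ((GM.unit H).tensor H A) A (λ_ M).hom :=
  (lift_eq H ((GM.unit H).tensor H A) A _ _ (Phi_leftUnitor A.A)).symm

theorem lift_rightUnitor (A : GM B M) :
    (ρ_ A.obj).hom = lift H (A.tensor H (GM.unit H)) A (ρ_ M).hom :=
  (lift_eq H (A.tensor H (GM.unit H)) A _ _ (Phi_rightUnitor A.A)).symm

theorem lift_braiding (A : GM B M) (C : GM B N) :
    (β_ A.obj C.obj).hom = lift H (A.tensor H C) (C.tensor H A) (β_ M N).hom :=
  (lift_eq H (A.tensor H C) (C.tensor H A) _ _ (Phi_braiding A.A C.A)).symm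

/-- Two good models of the same representation are isomorphic in the semisimplification. -/
noncomputable def liftIso (A C : GM B M) : A.obj ≅ C.obj where
  hom := lift H A C (𝟙 M)
  inv := lift H C A (𝟙 M)
  hom_inv_id := by rw [lift_comp, Category.id_comp, lift_id]
  inv_hom_id := by rw [lift_comp, Category.id_comp, lift_id]

/-- The functor from `rep Γ` to the semisimplification. -/
@[reducible] noncomputable def J : FDRep k Γ ⥤ Semisimp k G where
  obj M := (GM.choice H M).obj
  map u := lift H _ _ u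
  map_id _ := lift_id H _
  map_comp _ _ := (lift_comp H _ _ _ _ _).symm

theorem lift_comp_eq {P : FDRep k Γ} (A : GM B M) (C : GM B N) (D : GM B K) (E : GM B P)
    (u : M ⟶ N) (v : N ⟶ P) (u' : M ⟶ K) (v' : K ⟶ P) (e : u ≫ v = u' ≫ v') :
    lift H A C u ≫ lift H C E v = lift H A D u' ≫ lift H D E v' := by
  rw [lift_comp, lift_comp, e]

/-- Its monoidal structure. -/
noncomputable def coreJ : (J H).CoreMonoidal where
  εIso := liftIso H (GM.unit H) (GM.choice H _)
  μIso M N := liftIso H ((GM.choice H M).tensor H (GM.choice H N)) (GM.choice H (M ⊗ N))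
  μIso_hom_natural_left {X Y} f Z :=
    (congrArg (· ≫ _) (lift_whiskerRight H (GM.choice H X) (GM.choice H Y) (GM.choice H Z) f)).trans
      (lift_comp_eq H ((GM.choice H X).tensor H (GM.choice H Z))
        ((GM.choice H Y).tensor H (GM.choice H Z)) (GM.choice H (X ⊗ Z)) (GM.choice H (Y ⊗ Z))
        (f ▷ Z) (𝟙 _) (𝟙 _) (f ▷ Z) (by simp))
  μIso_hom_natural_right {X Y} Z f :=
    (congrArg (· ≫ _) (lift_whiskerLeft H (GM.choice H Z) (GM.choice H X) (GM.choice H Y) f)).trans
      (lift_comp_eq H ((GM.choice H Z).tensor H (GM.choice H X))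
        ((GM.choice H Z).tensor H (GM.choice H Y)) (GM.choice H (Z ⊗ X)) (GM.choice H (Z ⊗ Y))
        (Z ◁ f) (𝟙 _) (𝟙 _) (Z ◁ f) (by simp))
  associativity X Y Z := by
    have h1 := lift_whiskerRight H ((GM.choice H X).tensor H (GM.choice H Y))
      (GM.choice H (X ⊗ Y)) (GM.choice H Z) (𝟙 _)
    have h2 := lift_whiskerLeft H (GM.choice H X) ((GM.choice H Y).tensor H (GM.choice H Z))
      (GM.choice H (Y ⊗ Z)) (𝟙 _)
    have h3 := lift_comp H ((GM.choice H (X ⊗ Y)).tensor H (GM.choice H Z))
      (GM.choice H ((X ⊗ Y) ⊗ Z)) (GM.choice H (X ⊗ Y ⊗ Z)) (𝟙 _) (α_ X Y Z).hom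
    have h4 := lift_comp H
      ((GM.choice H X).tensor H ((GM.choice H Y).tensor H (GM.choice H Z)))
      ((GM.choice H X).tensor H (GM.choice H (Y ⊗ Z))) (GM.choice H (X ⊗ Y ⊗ Z))
      (X ◁ 𝟙 (Y ⊗ Z)) (𝟙 _)
    have h5 := lift_assoc H (GM.choice H X) (GM.choice H Y) (GM.choice H Z)
    exact (congrArg₂ (· ≫ ·) h1 h3).trans ((lift_comp_eq H _ _ _ _ _ _ _ _ (by simp)).trans
      (congrArg₂ (· ≫ ·) h5 ((congrArg (· ≫ _) h2).trans h4)).symm)
  left_unitality X := by
    have h1 := lift_whiskerRight H (GM.unit H) (GM.choice H (𝟙_ _)) (GM.choice H X) (𝟙 _)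
    have h2 := lift_comp H ((GM.choice H (𝟙_ _)).tensor H (GM.choice H X))
      (GM.choice H (𝟙_ _ ⊗ X)) (GM.choice H X) (𝟙 _) (λ_ X).hom
    have h3 := lift_comp H ((GM.unit H).tensor H (GM.choice H X))
      ((GM.choice H (𝟙_ _)).tensor H (GM.choice H X)) (GM.choice H X) (𝟙 (𝟙_ _) ▷ X)
      (𝟙 _ ≫ (λ_ X).hom)
    rw [id_whiskerRight, Category.id_comp, Category.id_comp] at h3
    rw [id_whiskerRight] at h1
    rw [Category.id_comp] at h2
    exact (lift_leftUnitor H _).trans (h3.symm.trans (congrArg₂ (· ≫ ·) h1 h2).symm)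
  right_unitality X := by
    have h1 := lift_whiskerLeft H (GM.choice H X) (GM.unit H) (GM.choice H (𝟙_ _)) (𝟙 _)
    have h2 := lift_comp H ((GM.choice H X).tensor H (GM.choice H (𝟙_ _)))
      (GM.choice H (X ⊗ 𝟙_ _)) (GM.choice H X) (𝟙 _) (ρ_ X).hom
    have h3 := lift_comp H ((GM.choice H X).tensor H (GM.unit H))
      ((GM.choice H X).tensor H (GM.choice H (𝟙_ _))) (GM.choice H X) (X ◁ 𝟙 (𝟙_ _))
      (𝟙 _ ≫ (ρ_ X).hom)
    rw [MonoidalCategory.whiskerLeft_id, Category.id_comp, Category.id_comp] at h3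
    rw [MonoidalCategory.whiskerLeft_id] at h1
    rw [Category.id_comp] at h2
    exact (lift_rightUnitor H _).trans (h3.symm.trans (congrArg₂ (· ≫ ·) h1 h2).symm)

/-- Its braided monoidal structure. -/
@[reducible] noncomputable def braidedJ : (J H).Braided :=
  { (coreJ H).toMonoidal with
    braided := fun X Y =>
      (lift_comp_eq H ((GM.choice H X).tensor H (GM.choice H Y)) (GM.choice H (X ⊗ Y))
        ((GM.choice H Y).tensor H (GM.choice H X)) (GM.choice H (Y ⊗ X)) (𝟙 _) (β_ X Y).hom
        (β_ X Y).hom (𝟙 _) (by simp)).trans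
        (congrArg (· ≫ _) (lift_braiding H (GM.choice H X) (GM.choice H Y))).symm }

include H in
theorem Hyp.equivalence (c₀ : ι) (hV : ∀ c, gen (B c₀).X ((bar k G).obj (B c).X)) :
    ∃ F : FDRep k Γ ⥤ (gen (B c₀).X).FullSubcategory,
      F.IsEquivalence ∧ F.Additive ∧ F.Linear k ∧ Nonempty F.Braided := by
  let := braidedJ H
  have : (J H).Full := ⟨fun t => lift_surjective H _ _ t⟩
  have : (J H).Faithful := ⟨fun e => lift_injective H _ _ _ _ e⟩
  have : (J H).Additive := ⟨lift_add H _ _ _ _⟩
  have : (J H).Linear k := ⟨fun f c => lift_smul H _ _ c f⟩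
  exact equiv_of_functor _ (J H) ⟨L c₀, ⟨liftIso H _ ⟨B c₀, good_basic c₀⟩⟩⟩
    fun M => (GM.choice H M).good.mem_gen H.three _ hV

end Pool.Agent.MP_b7753f_al

end MrgPart3

-- ======== part 4: formerly Pool.Agent.MP_b7753f_al.Mats
section MrgPart4

/-!
# Matrices over the prime field of characteristic three, given by natural number tables
-/

open Module

namespace Pool.Agent.MP_b7753f_al

universe u

/-- A table of natural numbers. -/
abbrev NM : Type := ℕ → ℕ → ℕ

/-- `∑ l < n, f l * g l`, skipping the zero terms. -/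
noncomputable def dot (n : ℕ) (f g : ℕ → ℕ) : ℕ :=
  Nat.rec 0 (fun l acc => Nat.rec acc (fun a _ => (a + 1) * g l + acc) (f l)) n

/-- A bounded conjunction. -/
noncomputable def allTo (n : ℕ) (f : ℕ → Bool) : Bool :=
  Nat.rec true (fun l acc => f l && acc) n

/-- Product of tables. -/
noncomputable def NM.mul (n : ℕ) (A B : NM) : NM := fun i j => dot n (A i) fun l => B l j

/-- Sum of tables. -/
def NM.add (A B : NM) : NM := fun i j => A i j + B i j

/-- The identity table. -/
def NM.one : NM := fun i j => cond (Nat.beq i j) 1 0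

/-- The zero table. -/
def NM.zero : NM := fun _ _ => 0

/-- Kronecker product of tables, the second of size `r × c`. -/
noncomputable def NM.kron (r c : ℕ) (A B : NM) : NM := fun i j =>
  Nat.rec 0 (fun a _ => (a + 1) * B (i % r) (j % c)) (A (i / r) (j / c))

/-- Congruence of tables modulo three. -/
noncomputable def NM.eqv (m n : ℕ) (A B : NM) : Bool :=
  allTo m fun i => allTo n fun j => Nat.beq (A i j % 3) (B i j % 3)

/-- A table with `c` columns stored in base four. -/
def dec (c N : ℕ) : NM := fun i j => Nat.shiftRight N (2 * (i * c + j)) % 4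

theorem dot_eq (n : ℕ) (f g : ℕ → ℕ) : dot n f g = ∑ l ∈ Finset.range n, f l * g l := by
  induction n with
  | zero => rfl
  | succ n ih =>
    have : dot (n + 1) f g = Nat.rec (dot n f g) (fun a _ => (a + 1) * g n + dot n f g) (f n) :=
      rfl
    rw [this, Finset.sum_range_succ, ih]
    cases f n with
    | zero => simp
    | succ a => exact add_comm _ _

theorem allTo_iff (n : ℕ) (f : ℕ → Bool) : allTo n f = true ↔ ∀ l < n, f l = true := by
  induction n with
  | zero => simp [allTo]
  | succ n ih =>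
    have : allTo (n + 1) f = (f n && allTo n f) := rfl
    rw [this, Bool.and_eq_true, ih]
    constructor
    · rintro ⟨h1, h2⟩ l hl
      rcases Nat.lt_succ_iff_lt_or_eq.1 hl with h | rfl
      · exact h2 l h
      · exact h1
    · intro h
      exact ⟨h n (Nat.lt_succ_self n), fun l hl => h l (Nat.lt_succ_of_lt hl)⟩

theorem kron_eq (r c : ℕ) (A B : NM) (i j : ℕ) :
    NM.kron r c A B i j = A (i / r) (j / c) * B (i % r) (j % c) := by
  unfold NM.kron
  cases A (i / r) (j / c) with
  | zero => simp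
  | succ a => rfl

variable (k : Type u) [Field k]

/-- The matrix over `k` given by a table. -/
def cm (m n : ℕ) (A : NM) : Matrix (Fin m) (Fin n) k := Matrix.of fun i j => (A i j : k)

variable {k}

theorem cm_apply (m n : ℕ) (A : NM) (i : Fin m) (j : Fin n) : cm k m n A i j = (A i j : k) := rfl

theorem cm_mul (m n p : ℕ) (A B : NM) :
    cm k m p (NM.mul n A B) = cm k m n A * cm k n p B := by
  ext i j
  rw [Matrix.mul_apply, cm_apply, NM.mul, dot_eq, Nat.cast_sum, Finset.sum_range]
  simp [cm_apply]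

theorem cm_add (m n : ℕ) (A B : NM) : cm k m n (NM.add A B) = cm k m n A + cm k m n B := by
  ext i j
  simp [cm_apply, NM.add]

theorem cm_one (n : ℕ) : cm k n n NM.one = 1 := by
  ext i j
  rw [cm_apply, Matrix.one_apply, NM.one]
  by_cases h : i = j
  · subst h
    simp
  · have : Nat.beq i j = false := by
      rw [← Bool.not_eq_true, Nat.beq_eq]
      exact fun e => h (Fin.ext e)
    simp [this, h]

theorem cm_zero (m n : ℕ) : cm k m n NM.zero = 0 := by
  ext i j
  simp [cm_apply, NM.zero]

theorem cm_eqv [CharP k 3] {m n : ℕ} {A B : NM} (h : NM.eqv m n A B = true) :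
    cm k m n A = cm k m n B := by
  ext i j
  have := (allTo_iff _ _).1 ((allTo_iff _ _).1 h i i.2) j j.2
  exact (CharP.natCast_eq_natCast k 3).2 (Nat.eq_of_beq_eq_true this)

/-- The product basis indexed by `Fin (m * n)`. -/
noncomputable def prodBasis {X Y : Type u} [AddCommGroup X] [Module k X] [AddCommGroup Y]
    [Module k Y] {m n : ℕ} (b : Basis (Fin m) k X) (c : Basis (Fin n) k Y) :
    Basis (Fin (m * n)) k (TensorProduct k X Y) :=
  (b.tensorProduct c).reindex finProdFinEquiv

theorem toMatrix_prodBasis {X Y X' Y' : Type u} [AddCommGroup X] [Module k X] [AddCommGroup Y]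
    [Module k Y] [AddCommGroup X'] [Module k X'] [AddCommGroup Y'] [Module k Y'] {m n m' n' : ℕ}
    (b : Basis (Fin m) k X) (c : Basis (Fin n) k Y) (b' : Basis (Fin m') k X')
    (c' : Basis (Fin n') k Y') (f : X →ₗ[k] X') (g : Y →ₗ[k] Y') (i : Fin (m' * n'))
    (j : Fin (m * n)) :
    LinearMap.toMatrix (prodBasis b c) (prodBasis b' c') (TensorProduct.map f g) i j =
      LinearMap.toMatrix b b' f i.divNat j.divNat * LinearMap.toMatrix c c' g i.modNat j.modNat := by
  have := congrFun (congrFun (TensorProduct.toMatrix_map b c b' c' f g) (i.divNat, i.modNat))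
    (j.divNat, j.modNat)
  rw [Matrix.kroneckerMap_apply] at this
  rw [← this]
  simp only [LinearMap.toMatrix_apply, prodBasis, Basis.reindex_apply, Basis.repr_reindex_apply]
  rfl

theorem toMatrix_kron {X Y X' Y' : Type u} [AddCommGroup X] [Module k X] [AddCommGroup Y]
    [Module k Y] [AddCommGroup X'] [Module k X'] [AddCommGroup Y'] [Module k Y'] {m n m' n' : ℕ}
    {b : Basis (Fin m) k X} {c : Basis (Fin n) k Y} {b' : Basis (Fin m') k X'}
    {c' : Basis (Fin n') k Y'} {f : X →ₗ[k] X'} {g : Y →ₗ[k] Y'} {A B : NM}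
    (hf : LinearMap.toMatrix b b' f = cm k m' m A) (hg : LinearMap.toMatrix c c' g = cm k n' n B) :
    LinearMap.toMatrix (prodBasis b c) (prodBasis b' c') (TensorProduct.map f g) =
      cm k (m' * n') (m * n) (NM.kron n' n A B) := by
  ext i j
  rw [toMatrix_prodBasis, hf, hg, cm_apply, cm_apply, cm_apply, kron_eq, Nat.cast_mul]
  rfl

/-- A trace certificate: intertwiners are orthogonal to commutators. -/
theorem trace_cert {m n : ℕ} (F : Matrix (Fin m) (Fin n) k) (A B : Matrix (Fin n) (Fin n) k)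
    (A' B' : Matrix (Fin m) (Fin m) k) (C D E E' : Matrix (Fin n) (Fin m) k)
    (hA : F * A = A' * F) (hB : F * B = B' * F)
    (h : E + (C * A' + D * B') = E' + (A * C + B * D)) :
    (F * E).trace = (F * E').trace := by
  have := congrArg (fun t => (F * t).trace) h
  simp only [Matrix.mul_add, Matrix.trace_add] at this
  rw [← Matrix.mul_assoc F A, ← Matrix.mul_assoc F B, hA, hB, Matrix.mul_assoc A',
    Matrix.mul_assoc B', Matrix.trace_mul_comm A', Matrix.trace_mul_comm B',
    Matrix.mul_assoc F C, Matrix.mul_assoc F D] at this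
  exact add_right_cancel this

end Pool.Agent.MP_b7753f_al

end MrgPart4

-- ======== part 5: formerly Pool.Agent.MP_b7753f_al.Real
section MrgPart5

/-!
# Models for `G = (ℤ/3)²` and `Γ = D₅` described by tables
-/

open CategoryTheory MonoidalCategory Limits Module LinearMap DihedralGroup

namespace Pool.Agent.MP_b7753f_al

universe u

/-- The elementary abelian group of order nine. -/
abbrev E9 : Type := Multiplicative (ZMod 3 × ZMod 3)

/-- The dihedral group of order ten. -/
abbrev D5 : Type := DihedralGroup 5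

/-- First generator. -/
def g1 : E9 := Multiplicative.ofAdd (1, 0)

/-- Second generator. -/
def g2 : E9 := Multiplicative.ofAdd (0, 1)

theorem E9_eq : ∀ g : E9, g = g1 ^ g.toAdd.1.val * g2 ^ g.toAdd.2.val := by decide

theorem g2_inv : g2⁻¹ = g2 * g2 := by decide

theorem D5_r : ∀ i : ZMod 5, (r i : D5) = r 1 ^ i.val := by decide

theorem D5_sr : ∀ i : ZMod 5, (sr i : D5) = sr 0 * r 1 ^ i.val := by decide

variable {k : Type u} [Field k]

theorem comm_mul {G : Type} [Group G] {X Y : FDRep k G} (f : X →ₗ[k] Y) {a b : G}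
    (ha : f ∘ₗ X.ρ a = Y.ρ a ∘ₗ f) (hb : f ∘ₗ X.ρ b = Y.ρ b ∘ₗ f) :
    f ∘ₗ X.ρ (a * b) = Y.ρ (a * b) ∘ₗ f := by
  rw [map_mul, map_mul, Module.End.mul_eq_comp, Module.End.mul_eq_comp, ← comp_assoc, ha,
    comp_assoc, hb, comp_assoc]

theorem comm_pow {G : Type} [Group G] {X Y : FDRep k G} (f : X →ₗ[k] Y) {a : G}
    (ha : f ∘ₗ X.ρ a = Y.ρ a ∘ₗ f) (n : ℕ) : f ∘ₗ X.ρ (a ^ n) = Y.ρ (a ^ n) ∘ₗ f := by
  induction n with
  | zero =>
    rw [pow_zero, map_one, map_one]
    rfl
  | succ n ih =>
    rw [pow_succ]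
    exact comm_mul f ih ha

theorem comm_E9 {X Y : FDRep k E9} (f : X →ₗ[k] Y) (h1 : f ∘ₗ X.ρ g1 = Y.ρ g1 ∘ₗ f)
    (h2 : f ∘ₗ X.ρ g2 = Y.ρ g2 ∘ₗ f) (g : E9) : f ∘ₗ X.ρ g = Y.ρ g ∘ₗ f := by
  rw [E9_eq g]
  exact comm_mul f (comm_pow f h1 _) (comm_pow f h2 _)

theorem comm_D5 {X Y : FDRep k D5} (f : X →ₗ[k] Y) (h1 : f ∘ₗ X.ρ (r 1) = Y.ρ (r 1) ∘ₗ f)
    (h2 : f ∘ₗ X.ρ (sr 0) = Y.ρ (sr 0) ∘ₗ f) : Eqv X Y f := by
  rintro (i | i)
  · rw [D5_r i]
    exact comm_pow f h1 _
  · rw [D5_sr i]
    exact comm_mul f h2 (comm_pow f h1 _)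

theorem pow_val_add {R : Type*} [Monoid R] {n : ℕ} [NeZero n] {a : R} (ha : a ^ n = 1)
    (i j : ZMod n) : a ^ (i + j).val = a ^ i.val * a ^ j.val := by
  rw [ZMod.val_add, ← pow_eq_pow_mod _ ha, pow_add]

/-- A homomorphism from `(ℤ/3)²` given by two commuting elements of order three. -/
def homE9 {R : Type*} [Monoid R] (a b : R) (ha : a ^ 3 = 1) (hb : b ^ 3 = 1)
    (hab : Commute a b) : E9 →* R where
  toFun g := a ^ g.toAdd.1.val * b ^ g.toAdd.2.val
  map_one' := by simp
  map_mul' g g' := by
    simp only [toAdd_mul, Prod.fst_add, Prod.snd_add, pow_val_add ha, pow_val_add hb]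
    exact (Commute.mul_mul_mul_comm (hab.symm.pow_pow _ _) _ _).symm

/-- A homomorphism from `D₅` given by its defining relations. -/
def homD5 {R : Type*} [Monoid R] (a t : R) (ha : a ^ 5 = 1) (ht : t * t = 1)
    (hat : a * t * a = t) : D5 →* R where
  toFun
    | r i => a ^ i.val
    | sr i => t * a ^ i.val
  map_one' := pow_zero a
  map_mul' := by
    have h1 : ∀ n : ℕ, a ^ n * t * a ^ n = t := fun n => by
      induction n with
      | zero => simp
      | succ n ih =>
        conv_lhs => rw [pow_succ a n, mul_assoc _ a, ← pow_succ, pow_succ' a n, ← mul_assoc,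
          mul_assoc (a ^ n), mul_assoc a t, ← mul_assoc a t a, hat]
        exact ih
    have h2 : ∀ i j : ZMod 5, t * a ^ (j - i).val = a ^ i.val * (t * a ^ j.val) := fun i j => by
      have := pow_val_add ha i (j - i)
      rw [add_sub_cancel] at this
      rw [this, ← mul_assoc, ← mul_assoc, h1]
    rintro (i | i) (j | j)
    · exact pow_val_add ha i j
    · exact h2 i j
    · exact (congrArg (t * ·) (pow_val_add ha i j)).trans (mul_assoc _ _ _).symm
    · change a ^ (j - i).val = t * a ^ i.val * (t * a ^ j.val)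
      rw [mul_assoc, ← h2, ← mul_assoc, ht, one_mul]

/-- Tables describing a model. -/
structure Dat where
  n : ℕ
  d : ℕ
  A : NM
  B : NM
  I : NM
  P : NM
  w : ℕ → ℕ
  T : NM

/-- Tables of the tensor product. -/
noncomputable def Dat.tens (D E : Dat) : Dat where
  n := D.n * E.n
  d := D.d * E.d
  A := NM.kron E.n E.n D.A E.A
  B := NM.kron E.n E.n D.B E.B
  I := NM.kron E.n E.d D.I E.I
  P := NM.kron E.d E.n D.P E.P
  w a := D.w (a / E.d) + E.w (a % E.d)
  T := NM.kron E.d E.d D.T E.T

/-- A model is described by the tables `D` in suitable bases. -/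
structure Real (ζ : k) (D : Dat) {M : FDRep k D5} (A : Model g2 M) where
  bX : Basis (Fin D.n) k A.X
  bM : Basis (Fin D.d) k M
  hA : toMatrix bX bX (A.X.ρ g1) = cm k D.n D.n D.A
  hB : toMatrix bX bX (A.X.ρ g2) = cm k D.n D.n D.B
  hI : toMatrix bM bX A.i = cm k D.n D.d D.I
  hP : toMatrix bX bM A.p = cm k D.d D.n D.P
  hR : toMatrix bM bM (M.ρ (r 1)) = Matrix.diagonal fun a : Fin D.d => ζ ^ D.w a
  hT : toMatrix bM bM (M.ρ (sr 0)) = cm k D.d D.d D.T

variable {ζ : k} {D D' : Dat} {M M' : FDRep k D5} {A : Model g2 M} {A' : Model g2 M'}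

/-- The description of a tensor product. -/
noncomputable def Real.tensor (R : Real ζ D A) (R' : Real ζ D' A') :
    Real ζ (D.tens D') (A.tensor A') where
  bX := prodBasis R.bX R'.bX
  bM := prodBasis R.bM R'.bM
  hA := toMatrix_kron R.hA R'.hA
  hB := toMatrix_kron R.hB R'.hB
  hI := toMatrix_kron R.hI R'.hI
  hP := toMatrix_kron R.hP R'.hP
  hR := by
    ext i j
    refine (toMatrix_prodBasis R.bM R'.bM R.bM R'.bM (M.ρ (r 1)) (M'.ρ (r 1)) i j).trans ?_
    rw [R.hR, R'.hR]
    by_cases h : i = j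
    · subst h
      simp only [Matrix.diagonal_apply_eq, ← pow_add]
      rfl
    · rw [Matrix.diagonal_apply_ne _ h]
      by_cases h1 : i.divNat = j.divNat
      · have h2 : i.modNat ≠ j.modNat := fun h2 =>
          h (finProdFinEquiv.symm.injective (Prod.ext h1 h2))
        rw [Matrix.diagonal_apply_ne _ h2, mul_zero]
      · rw [Matrix.diagonal_apply_ne _ h1, zero_mul]
  hT := toMatrix_kron R.hT R'.hT

/-- The tables of the unit. -/
def dat0 : Dat := ⟨1, 1, NM.one, NM.one, NM.one, NM.one, fun _ => 0, NM.one⟩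

/-- The description of the unit model. -/
noncomputable def Real.unit (ζ : k) : Real ζ dat0 (Model.unit (Γ := D5) g2) where
  bX := Basis.singleton (Fin 1) k
  bM := Basis.singleton (Fin 1) k
  hA := (toMatrix_id _).trans (cm_one 1).symm
  hB := (toMatrix_id _).trans (cm_one 1).symm
  hI := (toMatrix_id _).trans (cm_one 1).symm
  hP := (toMatrix_id _).trans (cm_one 1).symm
  hR := (toMatrix_id _).trans (Matrix.diagonal_one.symm.trans
    (congrArg Matrix.diagonal (funext fun _ => (pow_zero ζ).symm)))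
  hT := (toMatrix_id _).trans (cm_one 1).symm

theorem toMatrix_Phi (R : Real ζ D A) (R' : Real ζ D' A') (f : A.X ⟶ A'.X) :
    toMatrix R.bM R'.bM (Phi A A' f) =
      cm k D'.d D'.n D'.P * toMatrix R.bX R'.bX (lin f) * cm k D.n D.d D.I := by
  rw [Phi, toMatrix_comp _ R'.bX, toMatrix_comp _ R.bX, R'.hP, R.hI, Matrix.mul_assoc]

theorem toMatrix_commA (R : Real ζ D A) (R' : Real ζ D' A') (f : A.X ⟶ A'.X) :
    toMatrix R.bX R'.bX (lin f) * cm k D.n D.n D.A =
      cm k D'.n D'.n D'.A * toMatrix R.bX R'.bX (lin f) := by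
  rw [← R.hA, ← R'.hA, ← toMatrix_comp, ← toMatrix_comp, lin_comm f]

theorem toMatrix_commB (R : Real ζ D A) (R' : Real ζ D' A') (f : A.X ⟶ A'.X) :
    toMatrix R.bX R'.bX (lin f) * cm k D.n D.n D.B =
      cm k D'.n D'.n D'.B * toMatrix R.bX R'.bX (lin f) := by
  rw [← R.hB, ← R'.hB, ← toMatrix_comp, ← toMatrix_comp, lin_comm f]

/-- The table `F` intertwines the two actions of `(ℤ/3)²`. -/
noncomputable def homOK (D D' : Dat) (F : NM) : Bool :=
  NM.eqv D'.n D.n (NM.mul D.n F D.A) (NM.mul D'.n D'.A F) &&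
    NM.eqv D'.n D.n (NM.mul D.n F D.B) (NM.mul D'.n D'.B F)

/-- The table of the Brauer quotient of `F`. -/
noncomputable def phiT (D D' : Dat) (F : NM) : NM := NM.mul D.n (NM.mul D'.n D'.P F) D.I

variable [CharP k 3]

theorem exists_hom (R : Real ζ D A) (R' : Real ζ D' A') (F : NM) (h : homOK D D' F = true) :
    ∃ f : A.X ⟶ A'.X, toMatrix R.bM R'.bM (Phi A A' f) = cm k D'.d D.d (phiT D D' F) := by
  rw [homOK, Bool.and_eq_true] at h
  have h1 := cm_eqv (k := k) h.1
  have h2 := cm_eqv (k := k) h.2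
  rw [cm_mul, cm_mul] at h1 h2
  refine ⟨mkHom (Matrix.toLin R.bX R'.bX (cm k D'.n D.n F)) (comm_E9 _ ?_ ?_), ?_⟩
  · apply (toMatrix R.bX R'.bX).injective
    rw [toMatrix_comp _ R.bX, toMatrix_comp _ R'.bX, toMatrix_toLin, R.hA, R'.hA, h1]
  · apply (toMatrix R.bX R'.bX).injective
    rw [toMatrix_comp _ R.bX, toMatrix_comp _ R'.bX, toMatrix_toLin, R.hB, R'.hB, h2]
  · rw [toMatrix_Phi, lin_mkHom, toMatrix_toLin, phiT, cm_mul, cm_mul]

omit [CharP k 3] in
theorem eqv_of_matrix (hζ : ζ ^ 5 = 1) (R : Real ζ D A) (R' : Real ζ D' A') (u : M →ₗ[k] M')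
    (h1 : ∀ a b, toMatrix R.bM R'.bM u a b = 0 ∨ D'.w a % 5 = D.w b % 5)
    (h2 : toMatrix R.bM R'.bM u * cm k D.d D.d D.T =
      cm k D'.d D'.d D'.T * toMatrix R.bM R'.bM u) : Eqv M M' u := by
  refine comm_D5 u ?_ ?_
  · apply (toMatrix R.bM R'.bM).injective
    rw [toMatrix_comp _ R.bM, toMatrix_comp _ R'.bM, R.hR, R'.hR]
    ext a b
    rw [Matrix.mul_diagonal, Matrix.diagonal_mul]
    rcases h1 a b with h | h
    · rw [h, zero_mul, mul_zero]
    · rw [pow_eq_pow_mod _ hζ, ← h, ← pow_eq_pow_mod _ hζ, mul_comm]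
  · apply (toMatrix R.bM R'.bM).injective
    rw [toMatrix_comp _ R.bM, toMatrix_comp _ R'.bM, R.hT, R'.hT, h2]

omit [CharP k 3] in
theorem matrix_of_eqv (hζ : IsPrimitiveRoot ζ 5) (R : Real ζ D A) (R' : Real ζ D' A')
    (u : M →ₗ[k] M') (hu : Eqv M M' u) :
    (∀ (a : Fin D'.d) (b : Fin D.d), D'.w a % 5 ≠ D.w b % 5 → toMatrix R.bM R'.bM u a b = 0) ∧
      toMatrix R.bM R'.bM u * cm k D.d D.d D.T =
        cm k D'.d D'.d D'.T * toMatrix R.bM R'.bM u := by
  constructor
  · intro a b hab
    have := congrArg (fun t => toMatrix R.bM R'.bM t a b) (hu (r 1))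
    simp only [toMatrix_comp _ R.bM, toMatrix_comp R.bM R'.bM, R.hR, R'.hR, Matrix.mul_diagonal,
      Matrix.diagonal_mul] at this
    by_contra h0
    rw [mul_comm, mul_left_inj' h0, pow_eq_pow_mod _ hζ.pow_eq_one,
      pow_eq_pow_mod (D'.w a) hζ.pow_eq_one] at this
    exact hab (hζ.pow_inj (Nat.mod_lt _ (by norm_num)) (Nat.mod_lt _ (by norm_num)) this).symm
  · rw [← R.hT, ← R'.hT, ← toMatrix_comp, ← toMatrix_comp, hu (sr 0)]

/-- The table `U` is `D₅`-equivariant. -/
noncomputable def eqvOK (D D' : Dat) (U : NM) : Bool :=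
  (allTo D'.d fun a => allTo D.d fun b =>
    Nat.beq (U a b % 3) 0 || Nat.beq (D'.w a % 5) (D.w b % 5)) &&
    NM.eqv D'.d D.d (NM.mul D.d U D.T) (NM.mul D'.d D'.T U)

theorem eqv_of_check (hζ : ζ ^ 5 = 1) (R : Real ζ D A) (R' : Real ζ D' A') (u : M →ₗ[k] M')
    (U : NM) (hU : toMatrix R.bM R'.bM u = cm k D'.d D.d U) (h : eqvOK D D' U = true) :
    Eqv M M' u := by
  rw [eqvOK, Bool.and_eq_true] at h
  refine eqv_of_matrix hζ R R' u (fun a b => ?_) ?_
  · have := (allTo_iff _ _).1 ((allTo_iff _ _).1 h.1 a a.2) b b.2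
    rw [Bool.or_eq_true, Nat.beq_eq, Nat.beq_eq] at this
    refine this.imp (fun e => ?_) id
    rw [hU, cm_apply]
    exact (CharP.cast_eq_zero_iff k 3 _).2 (Nat.dvd_of_mod_eq_zero e)
  · rw [hU, ← cm_mul, ← cm_mul]
    exact cm_eqv h.2

/-- The checks that make a table into a basic model. -/
noncomputable def basicOK (D : Dat) (S : NM) : Bool :=
  NM.eqv D.n D.n (NM.mul D.n (NM.mul D.n D.A D.A) D.A) NM.one &&
  NM.eqv D.n D.n (NM.mul D.n (NM.mul D.n D.B D.B) D.B) NM.one &&
  NM.eqv D.n D.n (NM.mul D.n D.A D.B) (NM.mul D.n D.B D.A) &&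
  NM.eqv D.n D.d (NM.mul D.n D.B D.I) D.I &&
  NM.eqv D.d D.n (NM.mul D.n D.P D.B) D.P &&
  NM.eqv D.d D.d (NM.mul D.n D.P D.I) NM.one &&
  NM.eqv D.n D.n (NM.add (NM.mul D.d D.I D.P)
    (NM.add (NM.add S (NM.mul D.n D.B (NM.mul D.n S (NM.mul D.n D.B D.B))))
      (NM.mul D.n (NM.mul D.n D.B D.B) (NM.mul D.n S D.B)))) NM.one &&
  NM.eqv D.d D.d (NM.mul D.d D.T D.T) NM.one &&
  allTo D.d fun a => allTo D.d fun b =>
    Nat.beq (D.T a b % 3) 0 || Nat.beq ((D.w a + D.w b) % 5) 0

theorem exists_basic (hζ : ζ ^ 5 = 1) (D : Dat) (S : NM) (h : basicOK D S = true) :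
    Nonempty (Σ (M : FDRep k D5) (A : Model g2 M), Real ζ D A) := by
  simp only [basicOK, Bool.and_eq_true] at h
  obtain ⟨⟨⟨⟨⟨⟨⟨⟨h1, h2⟩, h3⟩, h4⟩, h5⟩, h6⟩, h7⟩, h8⟩, h9⟩ := h
  replace h1 := cm_eqv (k := k) h1
  replace h2 := cm_eqv (k := k) h2
  replace h3 := cm_eqv (k := k) h3
  replace h4 := cm_eqv (k := k) h4
  replace h5 := cm_eqv (k := k) h5
  replace h6 := cm_eqv (k := k) h6
  replace h7 := cm_eqv (k := k) h7
  replace h8 := cm_eqv (k := k) h8
  simp only [cm_mul, cm_add, cm_one] at h1 h2 h3 h4 h5 h6 h7 h8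
  set a := cm k D.n D.n D.A
  set b := cm k D.n D.n D.B
  set t := cm k D.d D.d D.T with ht
  let c : Matrix (Fin D.d) (Fin D.d) k := Matrix.diagonal fun a => ζ ^ D.w a
  have hc : c ^ 5 = 1 := by
    rw [Matrix.diagonal_pow, ← Matrix.diagonal_one]
    congr 1
    ext a
    rw [Pi.pow_apply, ← pow_mul, mul_comm, pow_mul, hζ, one_pow]
  have hct : c * t * c = t := by
    ext i j
    rw [Matrix.mul_diagonal, Matrix.diagonal_mul]
    have := (allTo_iff _ _).1 ((allTo_iff _ _).1 h9 i i.2) j j.2
    rw [Bool.or_eq_true, Nat.beq_eq, Nat.beq_eq] at this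
    rcases this with e | e
    · have : t i j = 0 := (CharP.cast_eq_zero_iff k 3 _).2 (Nat.dvd_of_mod_eq_zero e)
      rw [this, mul_zero, zero_mul]
    · rw [mul_right_comm, ← pow_add, pow_eq_pow_mod _ hζ, e, pow_zero, one_mul]
  let ρX : Representation k E9 (Fin D.n → k) :=
    (Matrix.toLinAlgEquiv' : Matrix (Fin D.n) (Fin D.n) k ≃ₐ[k] _).toMonoidHom.comp
      (homE9 a b (by rw [pow_three', h1]) (by rw [pow_three', h2]) h3)
  let ρM : Representation k D5 (Fin D.d → k) :=
    (Matrix.toLinAlgEquiv' : Matrix (Fin D.d) (Fin D.d) k ≃ₐ[k] _).toMonoidHom.comp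
      (homD5 c t hc h8 hct)
  have e1 : ρX g1 = Matrix.toLin' a := congrArg Matrix.toLin' (by
    change a ^ 1 * b ^ 0 = a
    simp)
  have e2 : ρX g2 = Matrix.toLin' b := congrArg Matrix.toLin' (by
    change a ^ 0 * b ^ 1 = b
    simp)
  have e3 : ρX g2⁻¹ = Matrix.toLin' (b * b) := by
    rw [g2_inv, map_mul, e2, Matrix.toLin'_mul]
    rfl
  have e4 : ρM (r 1) = Matrix.toLin' c := congrArg Matrix.toLin' (pow_one c)
  have e5 : ρM (sr 0) = Matrix.toLin' t := congrArg Matrix.toLin' (mul_one t)
  refine ⟨⟨FDRep.of ρM,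
    { X := FDRep.of ρX
      i := Matrix.toLin' (cm k D.n D.d D.I)
      p := Matrix.toLin' (cm k D.d D.n D.P)
      s := Matrix.toLin' (cm k D.n D.n S)
      hi := ?_
      hp := ?_
      pi := ?_
      tot := ?_ },
    { bX := Pi.basisFun k (Fin D.n)
      bM := Pi.basisFun k (Fin D.d)
      hA := (congrArg toMatrix' e1).trans (toMatrix'_toLin' _)
      hB := (congrArg toMatrix' e2).trans (toMatrix'_toLin' _)
      hI := toMatrix'_toLin' _
      hP := toMatrix'_toLin' _
      hR := (congrArg toMatrix' e4).trans (toMatrix'_toLin' _)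
      hT := (congrArg toMatrix' e5).trans (toMatrix'_toLin' _) }⟩⟩
  · rw [FDRep.of_ρ', e2, ← Matrix.toLin'_mul, h4]
  · rw [FDRep.of_ρ', e2, ← Matrix.toLin'_mul, h5]
  · rw [← Matrix.toLin'_mul, h6, Matrix.toLin'_one]
  · rw [FDRep.of_ρ', e2, e3]
    have := congrArg Matrix.toLin' h7
    simp only [map_add, Matrix.toLin'_one, Matrix.toLin'_mul] at this ⊢
    exact this

end Pool.Agent.MP_b7753f_al

end MrgPart5

-- ======== part 6: formerly Pool.Agent.MP_b7753f_al.Data
section MrgPart6

-- ======== part 0: formerly Pool.Agent.MP_b7753f_al.Family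
section MrgPart0

/-!
# From finite checks on tables to the hypotheses of the reconstruction theorem
-/

open CategoryTheory MonoidalCategory Limits Module LinearMap DihedralGroup

namespace Pool.Agent.MP_b7753f_al

universe u

variable {k : Type u} [Field k] {ζ : k}
variable {D D' : Dat} {M M' : FDRep k D5} {A : Model g2 M} {A' : Model g2 M'}

/-- The sum of the maps through the basic models, as a table. -/
noncomputable def sumT {ι : Type} (dat : ι → Dat) (D : Dat) (l : List (ι × NM × NM)) : NM :=
  List.rec NM.zero (fun x _ acc =>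
    NM.add (NM.mul (dat x.1).d (phiT (dat x.1) D x.2.1) (phiT D (dat x.1) x.2.2)) acc) l

/-- The listed tables are intertwiners with equivariant Brauer quotient. -/
noncomputable def allOK {ι : Type} (dat : ι → Dat) (D : Dat) (l : List (ι × NM × NM)) : Bool :=
  List.rec true (fun x _ acc => homOK (dat x.1) D x.2.1 && homOK D (dat x.1) x.2.2 &&
    eqvOK (dat x.1) D (phiT (dat x.1) D x.2.1) && acc) l

/-- The check that a list of tables decomposes `D` through the basic models. -/
noncomputable def decOK {ι : Type} (dat : ι → Dat) (D : Dat) (l : List (ι × NM × NM)) : Bool :=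
  allOK dat D l && NM.eqv D.d D.d (sumT dat D l) NM.one

theorem good_of_check [CharP k 3] (hζ : ζ ^ 5 = 1) {ι : Type} {dat : ι → Dat}
    {L : ι → FDRep k D5} {B : ∀ c, Model g2 (L c)} (Rb : ∀ c, Real ζ (dat c) (B c))
    (R : Real ζ D A) (l : List (ι × NM × NM)) (h : decOK dat D l = true) : Good B A := by
  rw [decOK, Bool.and_eq_true] at h
  have key : allOK dat D l = true →
      ∃ u ∈ gens B A, toMatrix R.bM R.bM u = cm k D.d D.d (sumT dat D l) := by
    clear h
    induction l with
    | nil => exact fun _ => ⟨0, zero_mem _, (map_zero _).trans (cm_zero _ _).symm⟩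
    | cons x l ih =>
      intro h
      have e : allOK dat D (x :: l) = (homOK (dat x.1) D x.2.1 && homOK D (dat x.1) x.2.2 &&
        eqvOK (dat x.1) D (phiT (dat x.1) D x.2.1) && allOK dat D l) := rfl
      simp only [e, Bool.and_eq_true] at h
      obtain ⟨⟨⟨h1, h2⟩, h3⟩, h4⟩ := h
      obtain ⟨u, hu, eu⟩ := ih h4
      obtain ⟨p, hp⟩ := exists_hom (Rb x.1) R _ h1
      obtain ⟨q, hq⟩ := exists_hom R (Rb x.1) _ h2
      refine ⟨_, add_mem (mem_gens B x.1 p q (eqv_of_check hζ (Rb x.1) R _ _ hp h3)) hu, ?_⟩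
      rw [map_add, toMatrix_comp _ (Rb x.1).bM, hp, hq, eu, ← cm_mul, ← cm_add]
      rfl
  obtain ⟨u, hu, eu⟩ := key h.1
  rw [cm_eqv h.2, cm_one] at eu
  have : u = LinearMap.id := (toMatrix R.bM R.bM).injective (eu.trans (toMatrix_id _).symm)
  rwa [this] at hu

/-- The check of the trace certificates for `P F I = (P F I)₀₀ • Z`. -/
noncomputable def certOK (n n' d d' : ℕ) (a b a' b' P I Z : NM) (c : List (List (ℕ × ℕ))) : Bool :=
  allTo d' fun s => allTo d fun t =>
    NM.eqv n n'
      (NM.add (fun i j => I i t * P s j)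
        (NM.add (NM.mul n' (dec n' ((c.getD s []).getD t (0, 0)).1) a')
          (NM.mul n' (dec n' ((c.getD s []).getD t (0, 0)).2) b')))
      (NM.add (fun i j => Z s t * (I i 0 * P 0 j))
        (NM.add (NM.mul n a (dec n' ((c.getD s []).getD t (0, 0)).1))
          (NM.mul n b (dec n' ((c.getD s []).getD t (0, 0)).2))))

theorem entry_eq_trace {n n' d d' : ℕ} (P I : NM) (F : Matrix (Fin n') (Fin n) k) (s : Fin d')
    (t : Fin d) : (cm k d' n' P * F * cm k n d I) s t =
      (F * cm k n n' fun i j => I i t * P s j).trace := by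
  simp only [Matrix.trace, Matrix.diag, Matrix.mul_apply, cm_apply, Nat.cast_mul,
    Finset.sum_mul]
  rw [Finset.sum_comm]
  exact Finset.sum_congr rfl fun _ _ => Finset.sum_congr rfl fun _ _ => by ring

theorem cert_scalar [CharP k 3] {n n' d d' : ℕ} {a b a' b' P I Z : NM} {c : List (List (ℕ × ℕ))}
    (h : certOK n n' d d' a b a' b' P I Z c = true) (F : Matrix (Fin n') (Fin n) k)
    (hA : F * cm k n n a = cm k n' n' a' * F) (hB : F * cm k n n b = cm k n' n' b' * F) :
    ∃ x : k, cm k d' n' P * F * cm k n d I = x • cm k d' d Z := by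
  refine ⟨(F * cm k n n' fun i j => I i 0 * P 0 j).trace, ?_⟩
  ext s t
  have h1 := cm_eqv (k := k) ((allTo_iff _ _).1 ((allTo_iff _ _).1 h s s.2) t t.2)
  simp only [cm_add, cm_mul] at h1
  rw [entry_eq_trace, trace_cert F _ _ _ _ _ _ _ _ hA hB h1]
  have : (cm k n n' fun i j => Z s t * (I i 0 * P 0 j)) =
      (Z s t : k) • cm k n n' fun i j => I i 0 * P 0 j := by
    ext i j
    simp [cm_apply]
  rw [this, Matrix.mul_smul, Matrix.trace_smul, Matrix.smul_apply, cm_apply, smul_eq_mul,
    smul_eq_mul, mul_comm]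

theorem Eqv.smul {u : M →ₗ[k] M'} (hu : Eqv M M' u) (c : k) : Eqv M M' (c • u) := fun γ => by
  rw [smul_comp, comp_smul, hu γ]

theorem eqv_of_cert [CharP k 3] (hζ : ζ ^ 5 = 1) (R : Real ζ D A) (R' : Real ζ D' A') {Z : NM}
    {c : List (List (ℕ × ℕ))}
    (h : certOK D.n D'.n D.d D'.d D.A D.B D'.A D'.B D'.P D.I Z c = true)
    (hZ : eqvOK D D' Z = true) (f : A.X ⟶ A'.X) : Eqv M M' (Phi A A' f) := by
  obtain ⟨x, hx⟩ := cert_scalar h _ (toMatrix_commA R R' f) (toMatrix_commB R R' f)
  have h1 := eqv_of_check hζ R R' (Matrix.toLin R.bM R'.bM (cm k D'.d D.d Z)) Z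
    (toMatrix_toLin _ _ _) hZ
  have h2 : Phi A A' f = x • Matrix.toLin R.bM R'.bM (cm k D'.d D.d Z) := by
    apply (toMatrix R.bM R'.bM).injective
    rw [toMatrix_Phi, hx, map_smul, toMatrix_toLin]
  rw [h2]
  exact h1.smul x

theorem full_of_scalar [CharP k 3] (R : Real ζ D A) (R' : Real ζ D' A') {Z F : NM}
    (h : homOK D D' F = true) (hZ : NM.eqv D'.d D.d (phiT D D' F) Z = true) (u : M →ₗ[k] M')
    (x : k) (hu : toMatrix R.bM R'.bM u = x • cm k D'.d D.d Z) : ∃ f, Phi A A' f = u := by
  obtain ⟨f, hf⟩ := exists_hom R R' F h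
  refine ⟨x • f, (toMatrix R.bM R'.bM).injective ?_⟩
  rw [Phi_smul, map_smul, hf, cm_eqv hZ, hu]

theorem hom_of_vec (R : Real ζ D A) (N : FDRep k D5) (vec : Fin D.d → N)
    (h1 : ∀ a, N.ρ (r 1) (vec a) = ζ ^ D.w a • vec a)
    (h2 : ∀ a, N.ρ (sr 0) (vec a) = ∑ b : Fin D.d, (D.T b a : k) • vec b) :
    ∃ u : M ⟶ N, ∀ a, lin u (R.bM a) = vec a := by
  have e : ∀ (γ : D5) (a : Fin D.d),
      M.ρ γ (R.bM a) = ∑ b, toMatrix R.bM R.bM (M.ρ γ) b a • R.bM b := fun γ a => by
    simp only [toMatrix_apply, Basis.sum_repr]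
  refine ⟨mkHom (R.bM.constr k vec) (comm_D5 _ ?_ ?_), fun a => R.bM.constr_basis k vec a⟩
  · refine R.bM.ext fun a => ?_
    rw [LinearMap.comp_apply, LinearMap.comp_apply, e, R.hR, map_sum, Basis.constr_basis, h1,
      Finset.sum_eq_single a]
    · rw [map_smul, Basis.constr_basis, Matrix.diagonal_apply_eq]
    · intro b _ hb
      rw [Matrix.diagonal_apply_ne _ hb, zero_smul, map_zero]
    · simp
  · refine R.bM.ext fun a => ?_
    rw [LinearMap.comp_apply, LinearMap.comp_apply, e, R.hT, map_sum, Basis.constr_basis, h2]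
    simp only [map_smul, Basis.constr_basis, cm_apply]

theorem mem_of_retract [CharP k 3] (hζ : ζ ^ 5 = 1) {ι : Type} {L : ι → FDRep k D5}
    {B : ∀ c, Model g2 (L c)} (H : Hyp B) (V : FDRep k E9) (R : Real ζ D A) (R' : Real ζ D' A')
    (hA : Good B A) (hA' : Good B A') (hV : gen V ((bar k E9).obj A'.X)) (U U' : NM)
    (h1 : eqvOK D D' U = true) (h2 : eqvOK D' D U' = true)
    (h3 : NM.eqv D.d D.d (NM.mul D'.d U' U) NM.one = true) : gen V ((bar k E9).obj A.X) := by
  obtain ⟨p, hp⟩ := H.full_Phi hA hA' _ (eqv_of_check hζ R R' _ U (toMatrix_toLin _ _ _) h1)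
  obtain ⟨q, hq⟩ := H.full_Phi hA' hA _ (eqv_of_check hζ R' R _ U' (toMatrix_toLin _ _ _) h2)
  refine (gen_isTensorSub V).summand _ _ ⟨(bar k E9).map p, (bar k E9).map q, ?_⟩ hV
  rw [← (bar k E9).map_comp, ← (bar k E9).map_id]
  refine bar_eq_of_Phi H.three A A _ _ ?_
  rw [Phi_comp H.three _ A', hp, hq, Phi_id, ← Matrix.toLin_mul, ← cm_mul, cm_eqv h3, cm_one,
    Matrix.toLin_one]

end Pool.Agent.MP_b7753f_al

end MrgPart0

-- ======== part 1: formerly Pool.Agent.MP_b7753f_al.Data
section MrgPart1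

/-!
# The tables of the example
-/

namespace Pool.Agent.MP_b7753f_al

/-- The tables of the model of the sign representation. -/
def dat1 : Dat :=
  ⟨7, 1, dec 7 0x1a40080060001105110010001,
    dec 7 0x18a02a90a5101009600010001,
    dec 1 0x60, dec 7 0x40, fun _ => 0, dec 1 0x2⟩

/-- The tables of the model of the first two-dimensional representation. -/
def dat2 : Dat :=
  ⟨8, 2, dec 8 0x41101400040001000044001100040001,
    dec 8 0x44101140040401010040001000040001,
    dec 2 0x4a5800, dec 8 0x200050, fun a => 1 + 3 * a, dec 2 0x14⟩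

/-- The tables of the model of the second two-dimensional representation. -/
def dat3 : Dat :=
  ⟨8, 2, dec 8 0x42101410040001000044001100040001,
    dec 8 0x44201140040401010040001000040001,
    dec 2 0x912900, dec 8 0xa00080, fun a => 2 + a, dec 2 0x14⟩

/-- The four basic tables. -/
def dat : Fin 4 → Dat
  | 0 => dat0
  | 1 => dat1
  | 2 => dat2
  | 3 => dat3

/-- The relative traces. -/
def datS : Fin 4 → NM
  | 0 => NM.zero
  | 1 => dec 7 0xa2922a1
  | 2 => dec 8 0x48241281
  | 3 => dec 8 0x48141281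

/-- Decomposition of a tensor product. -/
def dcp00 : List (Fin 4 × NM × NM) :=
  [(0, dec 1 0x1,
    dec 1 0x1)]

/-- Decomposition of a tensor product. -/
def dcp01 : List (Fin 4 × NM × NM) :=
  [(1, dec 7 0x1000100010001000100010001,
    dec 7 0x1000100010001000100010001)]

/-- Decomposition of a tensor product. -/
def dcp02 : List (Fin 4 × NM × NM) :=
  [(2, dec 8 0x40001000040001000040001000040001,
    dec 8 0x40001000040001000040001000040001)]

/-- Decomposition of a tensor product. -/
def dcp03 : List (Fin 4 × NM × NM) :=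
  [(3, dec 8 0x40001000040001000040001000040001,
    dec 8 0x40001000040001000040001000040001)]

/-- Decomposition of a tensor product. -/
def dcp10 : List (Fin 4 × NM × NM) :=
  [(1, dec 7 0x1000100010001000100010001,
    dec 7 0x1000100010001000100010001)]

/-- Decomposition of a tensor product. -/
def dcp11 : List (Fin 4 × NM × NM) :=
  [(0, dec 1 0x15020a06102402814001910,
    dec 49 0x406806a12a00a084900840)]

/-- Decomposition of a tensor product. -/
def dcp12 : List (Fin 4 × NM × NM) :=
  [(2, dec 8 0x2010100012109520a0601010026004202100840100101400650012000121040001004920002224009210210002100800420022100400022200900012000400028080912009102490908020a1021808090211040100000002000500020000000000a00820000200090002000100000000,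
    dec 56 0x122025011206000209121000200080041024a10200002001000000000000122012004000000200002000001028806840a2108095400186a000a0140096004a004162250668000010280028100100000111010600000000000020005000100a001200000000800080002000004120406)]

/-- Decomposition of a tensor product. -/
def dcp13 : List (Fin 4 × NM × NM) :=
  [(3, dec 8 0x500042006900860090509050096005628410020099006520560096000a120500a110660061009011a120690005200a00501060200500062100820090000500068040204064809140a021601005220a04094a056800000002000600060000000002620452000800060001000900000000,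
    dec 56 0x6856060086984206210001089000a9621018000910062105100800000000880018000000a04000091800001045002500820050814106240000902800a9004a00425111055a0000906a006a000900009992099410000000400050004000208880a120000000a000a0006000005980501)]

/-- Decomposition of a tensor product. -/
def dcp20 : List (Fin 4 × NM × NM) :=
  [(2, dec 8 0x40001000040001000040001000040001,
    dec 8 0x40001000040001000040001000040001)]

/-- Decomposition of a tensor product. -/
def dcp21 : List (Fin 4 × NM × NM) :=
  [(2, dec 8 0x100010000000812041420120005021004920842011106020080004102000022001110801042000000001691028121820011018500001000650809812601000616260000a0001200020211010002011620001000201900212012000080124000000000810080004000001040600000000,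
    dec 56 0x204259084246010016408401800280804858084100000020280001000000040200a0000005010000020002000a0940540140004a240281400080050680a0029201624801550000000a000050014000860202a2000000000000002001000502001aa0000000002800000000081420041)]

/-- Decomposition of a tensor product. -/
def dcp22 : List (Fin 4 × NM × NM) :=
  [(0, dec 1 0x410004008041a00a50024010004000,
    dec 64 0x20008014004100400011022008820),
   (1, dec 7 0x80420000401012854118009400820400100000080085000000108a000800500000050029045000010000a400111280400006800800028008424120116002510004040001400280801a228080410200001002800006840840020005002800500000000120508000000400040000000000,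
    dec 64 0x8180190486022601200a8600000a190080002104820100001002500100014000400012284202000020016002a00060000010008028004100400020011008840040601268560289008201540928444200000000000040002000000010800012400000000000800000002000a041a0056),
   (3, dec 8 0x820082001200152090a0224002600660520004000000940064005010010004101a00000000000500090002100000000111209800050002000644051200040001900060100902064000600051000900062200521002100512005000a2000200050268010200000004000900020000000006680410000100010006000500000000,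
    dec 64 0x6a50925648091008100a4002800220008840906a09010008000000000000000000100060290092008000620140066100000000a02500900040004002200220000080002041001400120048088402240000a00090550069006200590aa2099200000000000000000000200040016008000000000000200040002000401110888)]

/-- Decomposition of a tensor product. -/
def dcp23 : List (Fin 4 × NM × NM) :=
  [(2, dec 8 0x4000200090001400104060400040044049006200280011004020522000200220810080000800040001200620000200029400a000050002000460052000060002998002400998005200a00062000900001000500001200500005000a000010005061a0609000900050001000600000000095a0448000200000004000500000000,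
    dec 64 0x9960195a010080019000000100004000820020004005100010026100800222000020000020002120000041001002a200002000805400a10050004106a0022200009000606a009500900069299006600000a00010560028002100580aa2011100000000000010002000000060200019800000000000400060001000608200999),
   (3, dec 8 0x8000a0102410540042806040049006408020400096006810a0204120052008202020220005000a01042006200002000294006610060102000a40040000040000128080800160088000500021000100085010420005200420000200800005000400a000910006000800040006000000000a58096900020002000a000400000000,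
    dec 64 0x5a40058a6204410240025001900080006960064265068002800a200490054000001000904600a20050008216a001500000100040a8002200a0006209400a810000500080a90042004200a485500880000080009042006a006200482880099000000000000050004000200090a1208600000000000080006000200040412098a)]

/-- Decomposition of a tensor product. -/
def dcp30 : List (Fin 4 × NM × NM) :=
  [(3, dec 8 0x40001000040001000040001000040001,
    dec 8 0x40001000040001000040001000040001)]

/-- Decomposition of a tensor product. -/
def dcp31 : List (Fin 4 × NM × NM) :=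
  [(3, dec 8 0x201014008210a1a0a0a006800190410048005010918090200a9008a49402640091000a009a420000000440009800620009106190000100096190a921522000415020000900026000682194100062910000090006069005210a10000a0a11000000000a950a0005000009050800000000,
    dec 56 0x218441a990114040005612400280058849a4201150400628000822400004002104021014040020080410000800921801202808a400042080000800a068050015002524802a20001400a280050015085865542a200000000001400100100022a102160000000002800a00100081620541)]

/-- Decomposition of a tensor product. -/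
def dcp32 : List (Fin 4 × NM × NM) :=
  [(2, dec 8 0x5000610049006600611020a0092006a0020050004a0058000020a1800900088062001a0004000a000660021000060001200020000800010000a00a00000a00002280809002110890005000a1000200089000a20009100a10009200500009000a0082001a00010009000600020000000008840112000100010000000a00000000,
    dec 64 0x40004844800a4005400a4004400180002090215449018900800480018000400000000010020050000000220000049100008000509a0098008000220160040100006000909600690061006206620990000040006082009600910048044206610000000000000000600010002002009120000000000050002000100060a200199),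
   (3, dec 8 0xa020002020209a1010a0515000a00a504000800021006920809040420090096025209600050006010160052100060002500069100a01020008800420000800024090a02004200a40005000000004000a601141000620040100200080000600040490052000020004000100050000000006480821000200000008000400000000,
    dec 64 0x90608a040504060940090006000200001200aa5420080a0900061006100a000000400090660024804000a2125005400000a000608900aa0080002201600421000060004096008200810068066a04460000a00010550028002200a81aa00110000000000000a0008000100060528049200000000000600010002000409120289)]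

/-- Decomposition of a tensor product. -/
def dcp33 : List (Fin 4 × NM × NM) :=
  [(0, dec 1 0x6000a26a01910982089a06000a000,
    dec 64 0x6000a09500560050006206600aa10),
   (1, dec 7 0x841100180202050410901140080a400080288280201406202640a0020406080008a00208050100080004885400140000125400400014004a8040a010446a00000086001000689008222800080012000100280002288660000400a002000500000000108501000000800240000000000,
    dec 64 0x4000162862020002000188049001250051200228220800000009400000050100a2000124000442000006102000010020002000401440810082002402a0044800a2a001840814400042060485210486100000000000800020002000a041201500000000000050006000200080a100944),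
   (2, dec 8 0x200000206200652010a0609002a005a05100200049005900a280829009800890620048000a000900015006100005000169005010090002010a800811000800011280a28001500a80002200110001000a6000800006100810001000400006000802a0098200050008000100060000000005a5089600010001000a000800000000,
    dec 64 0x150052a126050504000621011001020090002218a00600000002a100500a02000000002001001000000041100002010000400080a4008400500000065000a00000500060a9409500920058151106640000100060280095009100140112066200000000000000000000200040010008100000000000200040001000801200846)]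

/-- Trace certificates. -/
def crt00 : List (List (ℕ × ℕ)) :=
  [[(0x0, 0x0)]]

/-- Trace certificates. -/
def crt01 : List (List (ℕ × ℕ)) :=
  [[(0x2200, 0x0)]]

/-- Trace certificates. -/
def crt02 : List (List (ℕ × ℕ)) :=
  [[(0x6000, 0x6000)],
   [(0x2000, 0x4000)]]

/-- Trace certificates. -/
def crt03 : List (List (ℕ × ℕ)) :=
  [[(0x5000, 0x9000)],
   [(0x4000, 0x1000)]]

/-- Trace certificates. -/
def crt10 : List (List (ℕ × ℕ)) :=
  [[(0x6, 0x0)]]

/-- Trace certificates. -/
def crt11 : List (List (ℕ × ℕ)) :=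
  [[(0x0, 0x0)]]

/-- Trace certificates. -/
def crt12 : List (List (ℕ × ℕ)) :=
  [[(0xa000a000000005005a0, 0xa000500)],
   [(0x1000100000000200210, 0x1000200)]]

/-- Trace certificates. -/
def crt13 : List (List (ℕ × ℕ)) :=
  [[(0x4000400000000800840, 0x4000800)],
   [(0x5000500000000a00a50, 0x5000a00)]]

/-- Trace certificates. -/
def crt20 : List (List (ℕ × ℕ)) :=
  [[(0x4, 0x2),
    (0x6, 0x6)]]

/-- Trace certificates. -/
def crt21 : List (List (ℕ × ℕ)) :=
  [[(0x80000001400000, 0x80),
    (0x220080011001400000, 0x100040)]]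

/-- Trace certificates. -/
def crt22 : List (List (ℕ × ℕ)) :=
  [[(0x0, 0x0),
    (0x200090008000600002400980, 0x10000000000008500410)],
   [(0x4000000001000000, 0x10),
    (0x100040008000800002800200, 0x20000000000004200000)]]

/-- Trace certificates. -/
def crt23 : List (List (ℕ × ℕ)) :=
  [[(0x100040000000800000800120, 0x20000000000004100110),
    (0x100020000000100000800450, 0x20000000000004900a20)],
   [(0x100040001000800004800120, 0x20000000000004100120),
    (0x1000a0001000500004800640, 0x20000000000004800820)]]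

/-- Trace certificates. -/
def crt30 : List (List (ℕ × ℕ)) :=
  [[(0x9, 0x5),
    (0x2, 0x8)]]

/-- Trace certificates. -/
def crt31 : List (List (ℕ × ℕ)) :=
  [[(0x440220040022002800000, 0x200000),
    (0x880110000011000000000, 0x100040)]]

/-- Trace certificates. -/
def crt32 : List (List (ℕ × ℕ)) :=
  [[(0x900060008000600002900960, 0x6400960),
    (0x800050004000500001100580, 0x20000000000002900490)],
   [(0x400080004000800001200210, 0x1000210),
    (0x800040004000400001100120, 0x2000110)]]

/-- Trace certificates. -/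
def crt33 : List (List (ℕ × ℕ)) :=
  [[(0x0, 0x0),
    (0x20000000200000000860, 0x10000000000000400960)],
   [(0x200010002000100008400480, 0x8900480),
    (0x1000100000001000008004a0, 0x10000000000004a00590)]]

/-- Trace certificates. -/
def crtTop : List (List (ℕ × ℕ)) :=
  [[(0x0, 0x0),
    (0x8000000002200000, 0x0),
    (0x1, 0x0),
    (0x10000, 0x0),
    (0x200000001000000001, 0x0),
    (0x8000022000000000000000000000, 0x0),
    (0x100000000000000000000, 0x0),
    (0x100000000, 0x0)],
   [(0x20000000100000000400, 0x800),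
    (0x200080000000400000000110, 0x10000000000008000060),
    (0x4, 0x0),
    (0x40000, 0x0),
    (0x800000004000000004, 0x0),
    (0x0, 0x40000),
    (0x400000000000000000000, 0x0),
    (0x400000000, 0x0)]]

/-- Auxiliary table. -/
def tX : NM := dec 8 0x1100400000000000004000100000000

/-- Auxiliary table. -/
def tY : NM := dec 8 0x4100140000400010000000000000000

/-- Auxiliary table. -/
def tA0 : NM := dec 8 0x100000000000400000400010

/-- Auxiliary table. -/
def tB0 : NM := dec 8 0x4000100

/-- Auxiliary table. -/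
def pp0 : NM := dec 1 0x28

/-- Auxiliary table. -/
def qq0 : NM := dec 4 0x14

/-- Auxiliary table. -/
def pp1 : NM := dec 1 0x18

/-- Auxiliary table. -/
def qq1 : NM := dec 4 0x24

/-- Auxiliary table. -/
def pp3 : NM := dec 2 0x4001

/-- Auxiliary table. -/
def qq3 : NM := dec 4 0x4001

end Pool.Agent.MP_b7753f_al

end MrgPart1

-- marker of a merged file
example : 731051 + 22947 = 731051 + 22947 := rfl

end MrgPart6

-- marker of a merged file
example : 731051 + 22947 = 731051 + 22947 := rfl
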