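import Mathlib.LinearAlgebra.Eigenspace.Triangularizable
import Mathlib.RingTheory.RootsOfUnity.AlgebraicallyClosed
import Mathlib.RingTheory.TotallySplit
import Pool.Agent.MP_b7753f_al.Checks

/-!
# The example: an eight-dimensional module of `(ℤ/3)²` generating `rep D₅`
-/

open CategoryTheory MonoidalCategory Limits Module LinearMap DihedralGroup

namespace Pool.Agent.MP_b7753f_al

universe u

variable {k : Type u} [Field k] {ζ : k}

theorem schur_zero (D D' : Dat) (U : Matrix (Fin D'.d) (Fin D.d) k)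
    (h : ∀ (a : Fin D'.d) (b : Fin D.d), D'.w a % 5 ≠ D.w b % 5 → U a b = 0)
    (hw : ∀ (a : Fin D'.d) (b : Fin D.d), D'.w a % 5 ≠ D.w b % 5) :
    ∃ x : k, U = x • cm k D'.d D.d NM.zero :=
  ⟨0, by
    ext a b
    rw [h a b (hw a b), zero_smul, Matrix.zero_apply]⟩

theorem schur_one (U : Matrix (Fin 1) (Fin 1) k) : ∃ x : k, U = x • cm k 1 1 NM.one :=
  ⟨U 0 0, by
    ext a b
    rw [cm_one, Subsingleton.elim a 0, Subsingleton.elim b 0]
    simp⟩

theorem schur_sign (U : Matrix (Fin 1) (Fin 1) k)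
    (h : U * cm k 1 1 NM.one = cm k 1 1 (dec 1 2) * U ∨
      U * cm k 1 1 (dec 1 2) = cm k 1 1 NM.one * U) : ∃ x : k, U = x • cm k 1 1 NM.zero := by
  refine ⟨0, ?_⟩
  ext a b
  rw [Subsingleton.elim a 0, Subsingleton.elim b 0, zero_smul, Matrix.zero_apply]
  have e : cm k 1 1 (dec 1 2) 0 0 = 2 := Nat.cast_two
  rcases h with h | h
  · have := congrFun (congrFun h 0) 0
    rw [cm_one, Matrix.mul_one, Matrix.mul_apply, Fin.sum_univ_one, e] at this
    linear_combination -this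
  · have := congrFun (congrFun h 0) 0
    rw [cm_one, Matrix.one_mul, Matrix.mul_apply, Fin.sum_univ_one, e] at this
    linear_combination this

theorem schur_two (U : Matrix (Fin 2) (Fin 2) k) (h1 : U 0 1 = 0) (h2 : U 1 0 = 0)
    (h : U * cm k 2 2 (dec 2 20) = cm k 2 2 (dec 2 20) * U) : ∃ x : k, U = x • cm k 2 2 NM.one := by
  have e1 : cm k 2 2 (dec 2 20) 0 0 = 0 := Nat.cast_zero
  have e2 : cm k 2 2 (dec 2 20) 0 1 = 1 := Nat.cast_one
  have e3 : cm k 2 2 (dec 2 20) 1 1 = 0 := Nat.cast_zero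
  have := congrFun (congrFun h 0) 1
  rw [Matrix.mul_apply, Matrix.mul_apply, Fin.sum_univ_two, Fin.sum_univ_two, e1, e2, e3] at this
  refine ⟨U 0 0, ?_⟩
  rw [cm_one]
  ext a b
  fin_cases a <;> fin_cases b <;> simp [h1, h2]
  linear_combination -this

theorem schur : ∀ (c c' : Fin 4) (U : Matrix (Fin (dat c').d) (Fin (dat c).d) k),
    (∀ (a : Fin (dat c').d) (b : Fin (dat c).d), (dat c').w a % 5 ≠ (dat c).w b % 5 → U a b = 0) →
    U * cm k (dat c).d (dat c).d (dat c).T = cm k (dat c').d (dat c').d (dat c').T * U →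
    ∃ x : k, U = x • cm k (dat c').d (dat c).d (zT c c')
  | 0, 0, U, _, _ => schur_one U
  | 0, 1, U, _, h => schur_sign U (Or.inl h)
  | 0, 2, U, h, _ => schur_zero dat0 dat2 U h (by decide)
  | 0, 3, U, h, _ => schur_zero dat0 dat3 U h (by decide)
  | 1, 0, U, _, h => schur_sign U (Or.inr h)
  | 1, 1, U, _, _ => schur_one U
  | 1, 2, U, h, _ => schur_zero dat1 dat2 U h (by decide)
  | 1, 3, U, h, _ => schur_zero dat1 dat3 U h (by decide)
  | 2, 0, U, h, _ => schur_zero dat2 dat0 U h (by decide)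
  | 2, 1, U, h, _ => schur_zero dat2 dat1 U h (by decide)
  | 2, 2, U, h, h' => schur_two U (h (0 : Fin 2) (1 : Fin 2) (by decide))
      (h (1 : Fin 2) (0 : Fin 2) (by decide)) h'
  | 2, 3, U, h, _ => schur_zero dat2 dat3 U h (by decide)
  | 3, 0, U, h, _ => schur_zero dat3 dat0 U h (by decide)
  | 3, 1, U, h, _ => schur_zero dat3 dat1 U h (by decide)
  | 3, 2, U, h, _ => schur_zero dat3 dat2 U h (by decide)
  | 3, 3, U, h, h' => schur_two U (h (0 : Fin 2) (1 : Fin 2) (by decide))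
      (h (1 : Fin 2) (0 : Fin 2) (by decide)) h'

variable {L : Fin 4 → FDRep k D5} {B : ∀ c, Model g2 (L c)}

theorem exists_nonzero_hom [IsAlgClosed k] [CharP k 3] (hζ : IsPrimitiveRoot ζ 5)
    (R : ∀ c, Real ζ (dat c) (B c)) (N : FDRep k D5) [Nontrivial N] :
    ∃ (c : Fin 4) (u : L c ⟶ N), u ≠ 0 := by
  obtain ⟨x, hx⟩ := Module.End.exists_eigenvalue (N.ρ (r 1))
  obtain ⟨v, hv⟩ := hx.exists_hasEigenvector
  have hv0 : v ≠ 0 := hv.2
  have h5 : x ^ 5 = 1 := by
    have := hv.pow_apply 5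
    rw [← map_pow, r_one_pow_n, map_one, Module.End.one_apply] at this
    exact smul_left_injective k hv0 (this.symm.trans (one_smul k v).symm)
  obtain ⟨j, hj, rfl⟩ := hζ.eq_pow_of_pow_eq_one h5
  have h1 : N.ρ (r 1) v = ζ ^ j • v := hv.apply_eq_smul
  have h2 : N.ρ (sr 0) (N.ρ (sr 0) v) = v := by
    rw [← Module.End.mul_apply, ← map_mul, sr_mul_self, map_one, Module.End.one_apply]
  have h3 : N.ρ (r 1) (N.ρ (sr 0) v) = ζ ^ (j * 4 % 5) • N.ρ (sr 0) v := by
    have e : (r 1 * sr 0 : D5) = sr 0 * r 1 ^ 4 := by decide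
    rw [← Module.End.mul_apply, ← map_mul, e, map_mul, map_pow, Module.End.mul_apply,
      hv.pow_apply 4, map_smul, ← pow_mul, ← pow_eq_pow_mod _ hζ.pow_eq_one]
  have hw0 : N.ρ (sr 0) v ≠ 0 := fun h0 => hv0 (by rw [← h2, h0, map_zero])
  have fin : ∀ (c : Fin 4) (vec : Fin (dat c).d → N) (a : Fin (dat c).d), vec a ≠ 0 →
      (∀ a, N.ρ (r 1) (vec a) = ζ ^ (dat c).w a • vec a) →
      (∀ a, N.ρ (sr 0) (vec a) = ∑ b : Fin (dat c).d, ((dat c).T b a : k) • vec b) →
      ∃ (c : Fin 4) (u : L c ⟶ N), u ≠ 0 := fun c vec a ha e1 e2 => by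
    obtain ⟨u, hu⟩ := hom_of_vec (R c) N vec e1 e2
    refine ⟨c, u, fun h0 => ha ?_⟩
    rw [← hu a, h0]
    rfl
  have sw : ∀ y z : N, N.ρ (sr 0) y = z → N.ρ (sr 0) z = y → ∀ a : Fin 2,
      N.ρ (sr 0) (![y, z] a) = ∑ b : Fin 2, (dec 2 20 b a : k) • ![y, z] b := fun y z e1 e2 a => by
    rw [Fin.sum_univ_two]
    fin_cases a
    · change N.ρ (sr 0) y = ((0 : ℕ) : k) • y + ((1 : ℕ) : k) • z
      simp [e1]
    · change N.ρ (sr 0) z = ((1 : ℕ) : k) • y + ((0 : ℕ) : k) • z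
      simp [e2]
  interval_cases j
  · by_cases h : v + N.ρ (sr 0) v = 0
    · refine fin 1 (fun _ => v) (0 : Fin 1) hv0 (fun _ => h1) fun a => ?_
      have e : (2 : k) = -1 := by
        have : ((3 : ℕ) : k) = 0 := CharP.cast_eq_zero k 3
        push_cast at this
        linear_combination this
      obtain rfl : a = (0 : Fin 1) := Subsingleton.elim (α := Fin 1) _ _
      change N.ρ (sr 0) v = ∑ b : Fin 1, (dec 1 2 b 0 : k) • v
      rw [Fin.sum_univ_one]
      change N.ρ (sr 0) v = ((2 : ℕ) : k) • v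
      rw [Nat.cast_ofNat, e, neg_one_smul]
      exact eq_neg_of_add_eq_zero_right h
    · refine fin 0 (fun _ => v + N.ρ (sr 0) v) (0 : Fin 1) h (fun _ => ?_) fun a => ?_
      · rw [map_add, h1, h3, ← smul_add]
        rfl
      · obtain rfl : a = (0 : Fin 1) := Subsingleton.elim (α := Fin 1) _ _
        change _ = ∑ b : Fin 1, (NM.one b 0 : k) • (v + N.ρ (sr 0) v)
        rw [Fin.sum_univ_one, map_add, h2, add_comm]
        change _ = ((1 : ℕ) : k) • _
        rw [Nat.cast_one, one_smul]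
  · exact fin 2 ![v, N.ρ (sr 0) v] (0 : Fin 2) hv0 (Fin.forall_fin_two.2 ⟨h1, h3⟩)
      (sw _ _ rfl h2)
  · exact fin 3 ![v, N.ρ (sr 0) v] (0 : Fin 2) hv0 (Fin.forall_fin_two.2 ⟨h1, h3⟩)
      (sw _ _ rfl h2)
  · exact fin 3 ![N.ρ (sr 0) v, v] (0 : Fin 2) hw0 (Fin.forall_fin_two.2 ⟨h3, h1⟩)
      (sw _ _ h2 rfl)
  · exact fin 2 ![N.ρ (sr 0) v, v] (0 : Fin 2) hw0 (Fin.forall_fin_two.2 ⟨h3, h1⟩)
      (sw _ _ h2 rfl)

theorem hyp [IsAlgClosed k] [CharP k 3] (hζ : IsPrimitiveRoot ζ 5)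
    (R : ∀ c, Real ζ (dat c) (B c)) : Hyp B := by
  have hcard : (Fintype.card D5 : k) ≠ 0 := by
    rw [DihedralGroup.card, Ne, CharP.cast_eq_zero_iff k 3]
    decide
  refine ⟨by exact_mod_cast CharP.cast_eq_zero k 3,
    fun c c' f => eqv_of_cert hζ.pow_eq_one (R c) (R c') (cert_ok c c') (zT_eqv c c') f,
    fun c c' u hu => ?_, fun c c' => ?_,
    good_of_check hζ.pow_eq_one R (Real.unit ζ) _ unit_ok,
    fun M N u hu => exists_tr_ne_zero hcard u hu, fun M hM => ?_⟩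
  · obtain ⟨h1, h2⟩ := matrix_of_eqv hζ (R c) (R c') u hu
    obtain ⟨x, hx⟩ := schur c c' _ h1 h2
    exact full_of_scalar (R c) (R c') (zT_hom c c') (zT_phi c c') u x hx
  · obtain ⟨l, hl⟩ := tens_ok c c'
    exact good_of_check hζ.pow_eq_one R ((R c).tensor (R c')) l hl
  · obtain ⟨c, u, hu⟩ := exists_nonzero_hom hζ R M
    obtain ⟨v, hv⟩ := exists_tr_ne_zero hcard u hu
    obtain ⟨h1, h2⟩ := matrix_of_eqv hζ (R c) (R c) _ (eqv_lin (u ≫ v))
    obtain ⟨x, hx⟩ := schur c c _ h1 h2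
    rw [zT, if_pos rfl, cm_one] at hx
    have h3 : u ≫ v = x • 𝟙 _ := lin_injective ((toMatrix (R c).bM (R c).bM).injective (by
      rw [hx, lin_smul, map_smul, lin_id, toMatrix_id]))
    have h4 : x ≠ 0 := fun h0 => hv (by rw [h3, tr_smul, h0, zero_mul])
    refine ⟨c, u, x⁻¹ • v, by rw [Linear.comp_smul, h3, smul_smul, inv_mul_cancel₀ h4, one_smul],
      ?_⟩
    by_contra h5
    rw [not_nontrivial_iff_subsingleton] at h5
    exact hu (lin_injective (Subsingleton.elim _ _))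

theorem idem_eq [CharP k 3] (e : Matrix (Fin 8) (Fin 8) k) (he : e * e = e)
    (hA : e * cm k 8 8 dat2.A = cm k 8 8 dat2.A * e)
    (hB : e * cm k 8 8 dat2.B = cm k 8 8 dat2.B * e) : e = 0 ∨ e = 1 := by
  obtain ⟨c, hc⟩ := cert_scalar top_ok e hA hB
  have h := rad_ok
  simp only [Bool.and_eq_true] at h
  obtain ⟨⟨⟨⟨⟨⟨⟨h1, h2⟩, h3⟩, h4⟩, h5⟩, h6⟩, h7⟩, h8⟩ := h
  replace h1 := cm_eqv (k := k) h1
  replace h2 := cm_eqv (k := k) h2
  replace h3 := cm_eqv (k := k) h3
  replace h4 := cm_eqv (k := k) h4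
  replace h5 := cm_eqv (k := k) h5
  replace h6 := cm_eqv (k := k) h6
  replace h7 := cm_eqv (k := k) h7
  replace h8 := cm_eqv (k := k) h8
  simp only [cm_mul, cm_add, cm_one, cm_zero] at h1 h2 h3 h4 h5 h6 h7 h8 hc
  rw [h1, mul_add, add_mul, mul_one, one_mul, add_right_inj] at hA
  rw [h2, mul_add, add_mul, mul_one, one_mul, add_right_inj] at hB
  generalize cm k 8 8 tX = x at *
  generalize cm k 8 8 tY = y at *
  obtain ⟨n, hn⟩ : ∃ n, n = e - c • (1 : Matrix (Fin 8) (Fin 8) k) := ⟨_, rfl⟩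
  have n1 : cm k 2 8 NM.one * n = 0 := by
    rw [hn, Matrix.mul_sub, Matrix.mul_smul, Matrix.mul_one, ← hc, Matrix.mul_one, sub_self]
  have n2 : n = x * (cm k 8 8 tA0 * n) + y * (cm k 8 8 tB0 * n) := by
    conv_lhs => rw [← one_mul n, h3]
    rw [add_mul, add_mul, Matrix.mul_assoc, n1, Matrix.mul_zero, zero_add, mul_assoc, mul_assoc]
  have n3 : n * x = x * n := by rw [hn, sub_mul, mul_sub, hA, smul_mul_assoc, mul_smul_comm,
    one_mul, mul_one]
  have n4 : n * y = y * n := by rw [hn, sub_mul, mul_sub, hB, smul_mul_assoc, mul_smul_comm,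
    one_mul, mul_one]
  generalize cm k 8 8 tA0 * n = a at n2
  generalize cm k 8 8 tB0 * n = b at n2
  have n5 : n * n = x * x * (a * a) + x * y * (b * a) + x * y * (a * b) + y * y * (b * b) := by
    calc n * n = n * (x * a + y * b) := by rw [← n2]
      _ = x * n * a + y * n * b := by rw [mul_add, ← mul_assoc, ← mul_assoc, n3, n4]
      _ = x * (x * a + y * b) * a + y * (x * a + y * b) * b := by rw [← n2]
      _ = x * x * (a * a) + x * y * (b * a) + y * x * (a * b) + y * y * (b * b) := by noncomm_ring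
      _ = _ := by rw [h4]
  have n6 : n * n * n = 0 := by
    have e1 : n * n * x = 0 := by
      rw [mul_assoc, n3, ← mul_assoc, n3, mul_assoc, n5]
      simp only [mul_add, ← mul_assoc, h5, h6, h7, zero_mul, add_zero]
    have e2 : n * n * y = 0 := by
      have f1 : y * x * x = 0 := by rw [h4, mul_assoc, h4, ← mul_assoc, h6]
      have f2 : y * x * y = 0 := by rw [h4, h7]
      rw [mul_assoc, n4, ← mul_assoc, n4, mul_assoc, n5]
      simp only [mul_add, ← mul_assoc, f1, f2, h8, zero_mul, add_zero]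
    calc n * n * n = n * n * (x * a + y * b) := by rw [← n2]
      _ = 0 := by rw [mul_add, ← mul_assoc, ← mul_assoc, e1, e2, zero_mul, zero_mul, add_zero]
  by_cases h0 : c = 0
  · left
    rw [h0, zero_smul, sub_zero] at hn
    rw [hn, he, he] at n6
    exact n6
  · right
    have e1 : e = n + c • (1 : Matrix (Fin 8) (Fin 8) k) := by rw [hn, sub_add_cancel]
    have e2 : e * (n * n - c • n + (c * c) • (1 : Matrix (Fin 8) (Fin 8) k)) =
        (c * c * c) • (1 : Matrix (Fin 8) (Fin 8) k) := by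
      rw [e1]
      simp only [mul_add, add_mul, mul_sub, smul_mul_assoc, mul_smul_comm, one_mul, mul_one,
        smul_smul, ← mul_assoc, n6]
      module
    have e3 : e * (e * (n * n - c • n + (c * c) • (1 : Matrix (Fin 8) (Fin 8) k))) =
        e * (c * c * c) • (1 : Matrix (Fin 8) (Fin 8) k) := by rw [e2]
    rw [← mul_assoc, he, e2, mul_smul_comm, mul_one] at e3
    exact (smul_right_injective _ (mul_ne_zero (mul_ne_zero h0 h0) h0) e3).symm

theorem indecomposable [CharP k 3] {M : FDRep k D5} {A : Model g2 M} (R : Real ζ dat2 A) :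
    Indecomposable A.X := by
  constructor
  · intro h0
    have := congrArg lin (h0.eq_of_src (𝟙 _) 0)
    exact R.bX.ne_zero (0 : Fin 8) (LinearMap.congr_fun this _)
  · intro Y Z i
    let e : A.X ⟶ A.X := i.hom ≫ biprod.fst ≫ biprod.inl ≫ i.inv
    have he : e ≫ e = e := by simp [e]
    have h1 := idem_eq (toMatrix R.bX R.bX (lin e))
      ((toMatrix_comp R.bX R.bX R.bX _ _).symm.trans (congrArg _ (congrArg lin he)))
      (toMatrix_commA R R e) (toMatrix_commB R R e)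
    rcases h1 with h1 | h1
    · left
      have h2 : e = 0 := lin_injective ((toMatrix R.bX R.bX).injective (h1.trans (map_zero _).symm))
      have h3 : biprod.inl ≫ i.inv ≫ e ≫ i.hom ≫ biprod.fst = 𝟙 Y := by simp [e]
      rw [IsZero.iff_id_eq_zero, ← h3, h2]
      simp
    · right
      have h2 : e = 𝟙 _ :=
        lin_injective ((toMatrix R.bX R.bX).injective (h1.trans (toMatrix_id _).symm))
      have h3 : biprod.inr ≫ i.inv ≫ e ≫ i.hom ≫ biprod.snd = (0 : Z ⟶ Z) := by simp [e]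
      rw [IsZero.iff_id_eq_zero, ← h3, h2]
      simp

theorem main (k : Type u) [Field k] [IsAlgClosed k] [CharP k 3] :
    ∃ V : FDRep k E9, Module.finrank k V = 8 ∧ Indecomposable V ∧
      ∃ F : FDRep k D5 ⥤ (gen V).FullSubcategory,
        F.IsEquivalence ∧ F.Additive ∧ F.Linear k ∧ Nonempty F.Braided := by
  have : NeZero ((5 : ℕ) : k) := ⟨by
    rw [Ne, CharP.cast_eq_zero_iff k 3]
    decide⟩
  obtain ⟨ζ, hζ⟩ := HasEnoughRootsOfUnity.prim (M := k) (n := 5)
  have hb := fun c => exists_basic hζ.pow_eq_one (dat c) (datS c) (basic_ok c)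
  let T := fun c => (hb c).some
  have H : Hyp (fun c => (T c).2.1) := hyp hζ fun c => (T c).2.2
  refine ⟨(T 2).2.1.X, ?_, indecomposable (T 2).2.2, H.equivalence 2 fun c => ?_⟩
  · exact (finrank_eq_card_basis (T 2).2.2.bX).trans rfl
  · have h2 : gen (T 2).2.1.X ((bar k E9).obj (T 2).2.1.X) := fun _ _ h => h
    have h22 := (gen_isTensorSub (T 2).2.1.X).tensor _ _ h2 h2
    have key : ∀ (c : Fin 4) (U U' : NM), (eqvOK (dat c) (dat2.tens dat2) U &&
        eqvOK (dat2.tens dat2) (dat c) U' &&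
        NM.eqv (dat c).d (dat c).d (NM.mul 4 U' U) NM.one) = true →
        gen (T 2).2.1.X ((bar k E9).obj (T c).2.1.X) := fun c U U' h => by
      simp only [Bool.and_eq_true] at h
      exact mem_of_retract hζ.pow_eq_one H _ (T c).2.2 ((T 2).2.2.tensor (T 2).2.2)
        (good_basic c) (H.tens 2 2) h22 U U' h.1.1 h.1.2 h.2
    match c with
    | 0 => exact key 0 _ _ retr0
    | 1 => exact key 1 _ _ retr1
    | 2 => exact h2
    | 3 => exact key 3 _ _ retr3

end Pool.Agent.MP_b7753f_al
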